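import Pool.Agent.Helper96.Baire.Defs

set_option autoImplicit false

/-!
# The Baire `σ`-algebra of `C_p(K)` is generated by the evaluations
-/

namespace Pool.Agent.Helper96.Baire

open Set Filter Topology MeasureTheory

variable {K : Type*}

/-- nonempty open boxes in `ℝ^K` -/
def IsBox (b : Set (K → ℝ)) : Prop :=
  ∃ (s : Finset K) (V : K → Set ℝ), (∀ i, IsOpen (V i)) ∧ (∀ i, (V i).Nonempty) ∧
    b = (s : Set K).pi V

theorem IsBox.measurableSet {b : Set (K → ℝ)} (h : IsBox b) : MeasurableSet b := by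
  obtain ⟨s, V, hV, _, rfl⟩ := h
  exact MeasurableSet.pi s.countable_toSet (fun i _ => (hV i).measurableSet)

theorem IsBox.pos {b : Set (K → ℝ)} (h : IsBox b) :
    0 < Measure.infinitePi (fun _ : K => ProbabilityTheory.gaussianReal 0 1) b := by
  obtain ⟨s, V, hV, hn, rfl⟩ := h
  rw [Measure.infinitePi_pi _ (fun i _ => (hV i).measurableSet)]
  rw [pos_iff_ne_zero, Finset.prod_ne_zero_iff]
  intro i _ h0
  have h1 := ProbabilityTheory.gaussianReal_absolutelyContinuous' (μ := 0) (v := 1) one_ne_zero h0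
  exact ((hV i).measure_pos volume (hn i)).ne' h1

theorem box_ccc (D : Set (Set (K → ℝ))) (hb : ∀ b ∈ D, IsBox b) (hd : D.PairwiseDisjoint id) :
    D.Countable := by
  have h1 := Measure.countable_meas_pos_of_disjoint_iUnion
    (μ := Measure.infinitePi (fun _ : K => ProbabilityTheory.gaussianReal 0 1))
    (As := fun b : D => b.1) (fun b => (hb b.1 b.2).measurableSet)
    (fun b c hbc => hd b.2 c.2 (fun h => hbc (Subtype.ext h)))
  have h2 : {i : D | 0 < Measure.infinitePi
      (fun _ : K => ProbabilityTheory.gaussianReal 0 1) (i : Set (K → ℝ))} = univ := by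
    ext b
    simp only [mem_univ, iff_true]
    exact (hb b.1 b.2).pos
  rw [h2, countable_univ_iff] at h1
  exact h1

theorem exists_box {O : Set (K → ℝ)} (hO : IsOpen O) {f : K → ℝ} (hf : f ∈ O) :
    ∃ b, IsBox b ∧ f ∈ b ∧ b ⊆ O := by
  classical
  obtain ⟨I, u, hu, hs⟩ := isOpen_pi_iff.1 hO f hf
  refine ⟨(I : Set K).pi (fun i => if i ∈ I then u i else univ), ⟨I, _, ?_, ?_, rfl⟩, ?_, ?_⟩
  · intro i
    by_cases hi : i ∈ I
    · simp only [hi, if_true]
      exact (hu i hi).1
    · simp only [hi, if_false]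
      exact isOpen_univ
  · intro i
    by_cases hi : i ∈ I
    · simp only [hi, if_true]
      exact ⟨f i, (hu i hi).2⟩
    · simp only [hi, if_false]
      exact univ_nonempty
  · intro i hi
    have hi' : i ∈ I := hi
    simp only [hi', if_true]
    exact (hu i hi').2
  · intro g hg
    apply hs
    intro i hi
    have := hg i hi
    have hi' : i ∈ I := hi
    simpa only [hi', if_true] using this

/-- every open subset of `ℝ^K` has a dense subset which is a countable union of boxes -/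
theorem exists_dense_boxes {O : Set (K → ℝ)} (hO : IsOpen O) :
    ∃ D : Set (Set (K → ℝ)), D.Countable ∧ (∀ b ∈ D, IsBox b ∧ b ⊆ O) ∧ O ⊆ closure (⋃₀ D) := by
  obtain ⟨D, hD⟩ := zorn_subset {D : Set (Set (K → ℝ)) | (∀ b ∈ D, IsBox b ∧ b ⊆ O) ∧
    D.PairwiseDisjoint id} (by
      intro c hc hch
      refine ⟨⋃₀ c, ⟨?_, ?_⟩, fun s hs => subset_sUnion_of_mem hs⟩
      · rintro b ⟨s, hs, hb⟩
        exact (hc hs).1 b hb
      · have := (pairwise_sUnion (r := Function.onFun Disjoint id) hch.directedOn).2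
          (fun s hs => (hc hs).2)
        exact this)
  refine ⟨D, box_ccc D (fun b hb => (hD.prop.1 b hb).1) hD.prop.2, hD.prop.1, ?_⟩
  intro f hf
  by_contra hcon
  have h1 : IsOpen (O ∩ (closure (⋃₀ D))ᶜ) := hO.inter isClosed_closure.isOpen_compl
  obtain ⟨b, hb, hfb, hbs⟩ := exists_box h1 ⟨hf, hcon⟩
  have h2 : insert b D ∈ {D : Set (Set (K → ℝ)) | (∀ b ∈ D, IsBox b ∧ b ⊆ O) ∧
      D.PairwiseDisjoint id} := by
    refine ⟨?_, ?_⟩
    · rintro c (rfl | hc)
      · exact ⟨hb, fun x hx => (hbs hx).1⟩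
      · exact hD.prop.1 c hc
    · rw [pairwiseDisjoint_insert]
      refine ⟨hD.prop.2, fun c hc _ => ?_⟩
      rw [id, id, disjoint_left]
      intro x hx hxc
      exact (hbs hx).2 (subset_closure ⟨c, hc, hxc⟩)
  have h3 : b ∈ D := (hD.le_of_ge h2 (subset_insert b D)) (mem_insert b D)
  exact hcon (subset_closure ⟨b, h3, hfb⟩)

theorem measurableSet_closure_boxes (D : Set (Set (K → ℝ))) (hc : D.Countable)
    (hb : ∀ b ∈ D, IsBox b) : MeasurableSet (closure (⋃₀ D)) := by
  classical
  choose! s V hV hn hbe using hb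
  set T : Set K := ⋃ b ∈ D, (s b : Set K) with hT
  have hTc : T.Countable := hc.biUnion (fun b _ => (s b).countable_toSet)
  have : Countable {i // i ∈ T} := hTc
  set ρ : (K → ℝ) → ({i // i ∈ T} → ℝ) := fun f i => f i.1 with hρ
  have hρc : Continuous ρ := by
    apply continuous_pi
    intro i
    exact continuous_apply i.1
  have hρo : IsOpenMap ρ := by
    have h1 := (Homeomorph.piEquivPiSubtypeProd (fun i => i ∈ T) (fun _ : K => ℝ)).isOpenMap
    have h2 := isOpenMap_fst.comp h1
    exact h2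
  have hρm : Measurable ρ := by
    apply measurable_pi_lambda
    intro i
    exact measurable_pi_apply i.1
  have hdep : ∀ f g : K → ℝ, ρ f = ρ g → f ∈ ⋃₀ D → g ∈ ⋃₀ D := by
    rintro f g hfg ⟨b, hbD, hfb⟩
    refine ⟨b, hbD, ?_⟩
    rw [hbe b hbD] at hfb ⊢
    intro i hi
    have hiT : i ∈ T := by
      rw [hT]
      exact mem_biUnion hbD hi
    have h1 : f i = g i := congrFun hfg ⟨i, hiT⟩
    rw [← h1]
    exact hfb i hi
  have hpre : ⋃₀ D = ρ ⁻¹' (ρ '' (⋃₀ D)) := by
    apply Subset.antisymm (subset_preimage_image _ _)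
    rintro g ⟨f, hf, hfg⟩
    exact hdep f g hfg hf
  rw [hpre, ← hρo.preimage_closure_eq_closure_preimage hρc]
  exact hρm isClosed_closure.measurableSet

section density

variable [TopologicalSpace K] [CompactSpace K] [T2Space K]

theorem denseRange_coe : DenseRange (fun (f : C(K, ℝ)) (x : K) => f x) := by
  classical
  rw [DenseRange, dense_iff_inter_open]
  rintro O hO ⟨u, hu⟩
  obtain ⟨I, V, hV, hs⟩ := isOpen_pi_iff.1 hO u hu
  have h1 : ∀ i : K, ∃ f : C(K, ℝ), (∀ j ∈ I, j ≠ i → f j = 0) ∧ f i = 1 := by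
    intro i
    have hc1 : IsClosed ((I.erase i : Finset K) : Set K) := (Finset.finite_toSet _).isClosed
    have hc2 : IsClosed ({i} : Set K) := isClosed_singleton
    have hd : Disjoint ((I.erase i : Finset K) : Set K) ({i} : Set K) := by
      rw [disjoint_singleton_right]
      simp
    obtain ⟨f, hf0, hf1, _⟩ := exists_continuous_zero_one_of_isClosed hc1 hc2 hd
    refine ⟨f, fun j hj hji => ?_, hf1 rfl⟩
    exact hf0 (by simp [hj, hji])
  choose f hf0 hf1 using h1
  refine ⟨_, hs ?_, ⟨∑ i ∈ I, u i • f i, rfl⟩⟩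
  intro j hj
  have hj' : j ∈ I := hj
  have h2 : (∑ i ∈ I, u i • f i : C(K, ℝ)) j = u j := by
    rw [ContinuousMap.sum_apply, Finset.sum_eq_single j]
    · simp [hf1]
    · intro i _ hij
      simp [hf0 i j hj' hij.symm]
    · intro h
      exact absurd hj' h
  change (∑ i ∈ I, u i • f i : C(K, ℝ)) j ∈ V j
  rw [h2]
  exact (hV j hj').2

/-- every Baire set of `C_p(K)` is the trace of a set of the product `σ`-algebra -/
theorem Ba_tp_le :
    Ba (tp K) ≤ MeasurableSpace.comap (fun (f : C(K, ℝ)) (x : K) => f x) MeasurableSpace.pi := by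
  unfold Ba
  apply iSup_le
  rintro ⟨F, hF⟩
  simp only
  have hopen : ∀ U : Set ℝ, IsOpen U → ∃ O : Set (K → ℝ), IsOpen O ∧
      (fun (f : C(K, ℝ)) (x : K) => f x) ⁻¹' O = F ⁻¹' U := by
    intro U hU
    have h1 : IsOpen[tp K] (F ⁻¹' U) := @IsOpen.preimage _ _ (tp K) _ _ hF _ hU
    exact isOpen_induced_iff.1 h1
  have key : ∀ r : ℝ, ∃ B : Set (K → ℝ), MeasurableSet B ∧
      (fun (f : C(K, ℝ)) (x : K) => f x) ⁻¹' B = F ⁻¹' (Iio r) := by
    intro r
    choose O hO hOF using fun q : ℚ => hopen (Iio (q : ℝ)) isOpen_Iio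
    choose D hDc hDb hDd using fun q : ℚ => exists_dense_boxes (hO q)
    refine ⟨⋃ q : {q : ℚ // (q : ℝ) < r}, closure (⋃₀ D q.1), ?_, ?_⟩
    · exact MeasurableSet.iUnion fun q =>
        measurableSet_closure_boxes _ (hDc q.1) (fun b hb => (hDb q.1 b hb).1)
    · ext f
      simp only [mem_preimage, mem_iUnion, mem_Iio]
      constructor
      · rintro ⟨⟨q, hq⟩, hf⟩
        refine lt_of_le_of_lt ?_ hq
        by_contra hcon
        push Not at hcon
        obtain ⟨O', hO', hO'F⟩ := hopen (Ioi (q : ℝ)) isOpen_Ioi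
        have hfO' : (fun x : K => f x) ∈ O' := by
          have : f ∈ (fun (f : C(K, ℝ)) (x : K) => f x) ⁻¹' O' := by
            rw [hO'F]
            exact hcon
          exact this
        obtain ⟨v, hv1, hv2⟩ := mem_closure_iff.1 hf O' hO' hfO'
        obtain ⟨b, hb, hvb⟩ := hv2
        have hne : (O' ∩ O q).Nonempty := ⟨v, hv1, (hDb q b hb).2 hvb⟩
        obtain ⟨w, ⟨hw1, hw2⟩, ⟨g, hg⟩⟩ :=
          (denseRange_coe (K := K)).inter_open_nonempty _ (hO'.inter (hO q)) hne
        subst hg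
        have h3 : g ∈ (fun (f : C(K, ℝ)) (x : K) => f x) ⁻¹' O' := hw1
        have h4 : g ∈ (fun (f : C(K, ℝ)) (x : K) => f x) ⁻¹' (O q) := hw2
        rw [hO'F] at h3
        rw [hOF] at h4
        have h3' : (q : ℝ) < F g := h3
        have h4' : F g < (q : ℝ) := h4
        exact lt_asymm h3' h4'
      · intro hf
        obtain ⟨q, hq1, hq2⟩ := exists_rat_btwn hf
        refine ⟨⟨q, hq2⟩, hDd q ?_⟩
        have : f ∈ (fun (f : C(K, ℝ)) (x : K) => f x) ⁻¹' (O q) := by
          rw [hOF]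
          exact hq1
        exact this
  rw [borel_eq_generateFrom_Iio, MeasurableSpace.comap_generateFrom]
  apply MeasurableSpace.generateFrom_le
  rintro _ ⟨_, ⟨r, rfl⟩, rfl⟩
  obtain ⟨B, hB, hBF⟩ := key r
  exact ⟨B, hB, hBF⟩

end density

/-- sets of the product `σ`-algebra are determined by countably many coordinates -/
theorem pi_determined (B : Set (K → ℝ)) (hB : MeasurableSet B) :
    ∃ T : Set K, T.Countable ∧ ∀ u v : K → ℝ, (∀ t ∈ T, u t = v t) → (u ∈ B ↔ v ∈ B) := by
  let S : MeasurableSpace (K → ℝ) :=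
    { MeasurableSet' := fun B => ∃ T : Set K, T.Countable ∧
        ∀ u v : K → ℝ, (∀ t ∈ T, u t = v t) → (u ∈ B ↔ v ∈ B)
      measurableSet_empty := ⟨∅, countable_empty, fun _ _ _ => Iff.rfl⟩
      measurableSet_compl := by
        rintro B ⟨T, hT, h⟩
        exact ⟨T, hT, fun u v huv => not_congr (h u v huv)⟩
      measurableSet_iUnion := by
        intro B hB
        choose T hT h using hB
        refine ⟨⋃ n, T n, countable_iUnion hT, fun u v huv => ?_⟩
        simp only [mem_iUnion]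
        exact exists_congr fun n => h n u v (fun t ht => huv t (mem_iUnion.2 ⟨n, ht⟩)) }
  have h1 : MeasurableSpace.pi ≤ S := by
    apply iSup_le
    rintro i _ ⟨U, _, rfl⟩
    refine ⟨{i}, countable_singleton i, fun u v huv => ?_⟩
    simp only [mem_preimage]
    rw [huv i rfl]
  exact h1 B hB

end Pool.Agent.Helper96.Baire
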