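import Mathlib

set_option autoImplicit false

/-!
# Comeager subsets of the Cantor space: the block lemma
-/

namespace Pool.Agent.Helper96.Baire

open Set Filter Topology

theorem exists_level {O : Set (ℕ → Bool)} (hO : IsOpen O) {z : ℕ → Bool} (hz : z ∈ O) :
    ∃ l : ℕ, ∀ y : ℕ → Bool, (∀ n < l, y n = z n) → y ∈ O := by
  obtain ⟨I, u, hu, hs⟩ := isOpen_pi_iff.1 hO z hz
  refine ⟨I.sup id + 1, fun y hy => hs ?_⟩
  intro i hi
  have hi' : i ∈ I := hi
  have h1 : i ≤ I.sup id := Finset.le_sup (f := id) hi'
  rw [hy i (by omega)]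
  exact (hu i hi').2

/-- for a dense open set there is a block which forces membership, whatever happens before it -/
theorem block_step (O : Set (ℕ → Bool)) (hO : IsOpen O) (hd : Dense O) (m : ℕ) :
    ∃ l > m, ∃ u : ℕ → Bool, ∀ z : ℕ → Bool, (∀ n, m ≤ n → n < l → z n = u n) → z ∈ O := by
  have key : ∀ S : Finset (Fin m → Bool), ∃ l > m, ∃ u : ℕ → Bool, ∀ z : ℕ → Bool,
      (fun i : Fin m => z i) ∈ S → (∀ n, m ≤ n → n < l → z n = u n) → z ∈ O := by
    intro S
    induction S using Finset.induction_on with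
    | empty => exact ⟨m + 1, by omega, fun _ => false, fun z hz => absurd hz (Finset.notMem_empty _)⟩
    | insert s S hs ih =>
      obtain ⟨l, hl, u, hu⟩ := ih
      set z0 : ℕ → Bool := fun n => if h : n < m then s ⟨n, h⟩ else u n with hz0
      have h1 : IsOpen {z : ℕ → Bool | ∀ n < l, z n = z0 n} := by
        have : {z : ℕ → Bool | ∀ n < l, z n = z0 n} = ⋂ n ∈ Finset.range l, {z | z n = z0 n} := by
          ext z
          simp
        rw [this]
        apply isOpen_biInter_finset
        intro n _
        have : {z : ℕ → Bool | z n = z0 n} = (fun z : ℕ → Bool => z n) ⁻¹' {z0 n} := by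
          ext z
          simp
        rw [this]
        exact (isOpen_discrete _).preimage (continuous_apply n)
      obtain ⟨z1, hz1, hz1O⟩ := hd.inter_open_nonempty _ h1 ⟨z0, fun n _ => rfl⟩
      obtain ⟨l', hl'⟩ := exists_level hO hz1O
      refine ⟨max l l', lt_of_lt_of_le hl (le_max_left _ _), z1, fun z hz hzu => ?_⟩
      rcases Finset.mem_insert.1 hz with h | h
      · apply hl'
        intro n hn
        by_cases hnm : n < m
        · rw [hz1 n (by omega), hz0]
          simp only [hnm, dif_pos]
          rw [← h]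
        · exact hzu n (by omega) (lt_of_lt_of_le hn (le_max_right _ _))
      · apply hu z h
        intro n hmn hnl
        rw [hzu n hmn (lt_of_lt_of_le hnl (le_max_left _ _)), hz1 n hnl, hz0]
        simp only [not_lt.2 hmn, dif_neg, not_false_eq_true]
  obtain ⟨l, hl, u, hu⟩ := key Finset.univ
  exact ⟨l, hl, u, fun z hz => hu z (Finset.mem_univ _) hz⟩

/-- block lemma: a comeager subset of the Cantor space contains all sequences which agree with a
fixed sequence on infinitely many blocks of a fixed interval partition -/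
theorem block_lemma (G : Set (ℕ → Bool)) (hG : G ∈ residual (ℕ → Bool)) :
    ∃ (w : ℕ → Bool) (p : ℕ → ℕ), StrictMono p ∧ p 0 = 0 ∧ ∀ z : ℕ → Bool,
      {k : ℕ | ∀ n, p k ≤ n → n < p (k + 1) → z n = w n}.Infinite → z ∈ G := by
  obtain ⟨t, htG, htδ, htd⟩ := mem_residual.1 hG
  obtain ⟨O, hO, hOt⟩ := htδ.eq_iInter_nat
  -- decreasing dense open sets
  set O' : ℕ → Set (ℕ → Bool) := fun k => ⋂ i ∈ Finset.range (k + 1), O i with hO'
  have hO'o : ∀ k, IsOpen (O' k) := fun k => isOpen_biInter_finset (fun i _ => hO i)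
  have hO't : ∀ k, t ⊆ O' k := by
    intro k z hz
    rw [hOt] at hz
    simp only [hO', mem_iInter]
    intro i _
    exact mem_iInter.1 hz i
  have hO'd : ∀ k, Dense (O' k) := fun k => htd.mono (hO't k)
  choose l hl u hu using fun (k m : ℕ) => block_step (O' k) (hO'o k) (hO'd k) m
  set p : ℕ → ℕ := fun k => Nat.rec 0 (fun k m => l k m) k with hp
  have hp0 : p 0 = 0 := rfl
  have hps : ∀ k, p (k + 1) = l k (p k) := fun k => rfl
  have hmono : StrictMono p := strictMono_nat_of_lt_succ (fun k => by rw [hps]; exact hl k (p k))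
  have hex : ∀ n, ∃ k, p k ≤ n ∧ n < p (k + 1) := by
    intro n
    induction n with
    | zero =>
      have h01 : p 0 < p (0 + 1) := hmono (show 0 < 0 + 1 by omega)
      exact ⟨0, by omega, by omega⟩
    | succ n ih =>
      obtain ⟨k, h1, h2⟩ := ih
      by_cases h : n + 1 < p (k + 1)
      · exact ⟨k, by omega, h⟩
      · refine ⟨k + 1, by omega, ?_⟩
        have := hmono (show k + 1 < k + 1 + 1 by omega)
        omega
  have huniq : ∀ n k k', p k ≤ n → n < p (k + 1) → p k' ≤ n → n < p (k' + 1) → k = k' := by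
    intro n k k' h1 h2 h3 h4
    by_contra hne
    rcases lt_or_gt_of_ne hne with h | h
    · have := hmono.monotone (show k + 1 ≤ k' by omega)
      omega
    · have := hmono.monotone (show k' + 1 ≤ k by omega)
      omega
  choose κ hκ1 hκ2 using hex
  refine ⟨fun n => u (κ n) (p (κ n)) n, p, hmono, hp0, fun z hz => ?_⟩
  apply htG
  rw [hOt, mem_iInter]
  intro i
  obtain ⟨k, hk, hik⟩ := hz.exists_gt i
  have h1 : z ∈ O' k := by
    apply hu k (p k)
    intro n hn1 hn2
    rw [hk n hn1 (by rw [hps]; exact hn2)]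
    have : κ n = k := huniq n (κ n) k (hκ1 n) (hκ2 n) hn1 (by rw [hps]; exact hn2)
    simp only [this]
  simp only [hO', mem_iInter] at h1
  exact h1 i (Finset.mem_range.2 (by omega))

end Pool.Agent.Helper96.Baire
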