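import Pool.Agent.Helper96.Baire.Edgar
import Pool.Agent.Helper96.Baire.Cat

set_option autoImplicit false

/-!
# The core argument
-/

namespace Pool.Agent.Helper96.Baire

open Set Filter Topology MeasureTheory

variable {K : Type*} [TopologicalSpace K]

/-- `∑ z n * e n (T i)` where only the terms `n < m i` are nonzero -/
noncomputable def SS (T : ℕ → K) (e : ℕ → C(K, ℝ)) (m : ℕ → ℕ) (z : ℕ → Bool) (i : ℕ) : ℝ :=
  ∑ n ∈ Finset.range (m i), if z n then e n (T i) else 0

/-- restriction of `w` to the blocks `[p k, p (k+1))`, `k ∈ M` -/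
noncomputable def blk (w : ℕ → Bool) (p : ℕ → ℕ) (M : Set ℕ) (n : ℕ) : Bool :=
  haveI := Classical.propDecidable (∃ k ∈ M, p k ≤ n ∧ n < p (k + 1))
  if ∃ k ∈ M, p k ≤ n ∧ n < p (k + 1) then w n else false

/-- partition of unity on a countable set with subsequential interpolation of blocks -/
structure PU (T : ℕ → K) (a : ℕ → C(K, ℝ)) (e : ℕ → C(K, ℝ)) (m : ℕ → ℕ) : Prop where
  nonneg : ∀ n x, 0 ≤ e n x
  one : ∀ i, ∑ n ∈ Finset.range (m i), e n (T i) = 1
  zero : ∀ i n, m i ≤ n → e n (T i) = 0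
  bound : ∀ l x, ∑ n ∈ Finset.range l, e n x ≤ 2 * ∑ n ∈ Finset.range l, a n x
  interp : ∀ (w : ℕ → Bool) (p : ℕ → ℕ), StrictMono p → p 0 = 0 → ∀ E : Set ℕ, E.Infinite →
    ∃ M ⊆ E, M.Infinite ∧ ∃ h : C(K, ℝ), ∀ i, h (T i) = SS T e m (blk w p M) i

theorem blk_of_mem {w : ℕ → Bool} {p : ℕ → ℕ} {M : Set ℕ} {k n : ℕ} (hk : k ∈ M)
    (h1 : p k ≤ n) (h2 : n < p (k + 1)) : blk w p M n = w n := by
  unfold blk
  rw [if_pos ⟨k, hk, h1, h2⟩]

theorem block_unique {p : ℕ → ℕ} (hp : StrictMono p) {n k k' : ℕ} (h1 : p k ≤ n)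
    (h2 : n < p (k + 1)) (h3 : p k' ≤ n) (h4 : n < p (k' + 1)) : k = k' := by
  by_contra hne
  rcases lt_or_gt_of_ne hne with h | h
  · have := hp.monotone (show k + 1 ≤ k' by omega)
    omega
  · have := hp.monotone (show k' + 1 ≤ k by omega)
    omega

theorem blk_of_notMem {w : ℕ → Bool} {p : ℕ → ℕ} (hp : StrictMono p) {M : Set ℕ} {k n : ℕ}
    (hk : k ∉ M) (h1 : p k ≤ n) (h2 : n < p (k + 1)) : blk w p M n = false := by
  unfold blk
  rw [if_neg]
  rintro ⟨k', hk', h3, h4⟩
  exact hk (block_unique hp h1 h2 h3 h4 ▸ hk')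

theorem SS_or (T : ℕ → K) (e : ℕ → C(K, ℝ)) (m : ℕ → ℕ) (x y : ℕ → Bool)
    (hxy : ∀ n, ¬ (x n = true ∧ y n = true)) (i : ℕ) :
    SS T e m (fun n => x n || y n) i = SS T e m x i + SS T e m y i := by
  unfold SS
  rw [← Finset.sum_add_distrib]
  refine Finset.sum_congr rfl fun n _ => ?_
  have := hxy n
  rcases hx : x n <;> rcases hy : y n <;> simp_all

theorem SS_not (T : ℕ → K) (e : ℕ → C(K, ℝ)) (m : ℕ → ℕ) (x : ℕ → Bool) (i : ℕ) :
    SS T e m (fun n => !x n) i = (∑ n ∈ Finset.range (m i), e n (T i)) - SS T e m x i := by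
  unfold SS
  rw [← Finset.sum_sub_distrib]
  refine Finset.sum_congr rfl fun n _ => ?_
  by_cases hx : x n = true <;> simp [hx]

/-- finite modifications -/
theorem SS_mod (T : ℕ → K) (e : ℕ → C(K, ℝ)) (m : ℕ → ℕ) (hz : ∀ i n, m i ≤ n → e n (T i) = 0)
    (x y : ℕ → Bool) (N : ℕ) (hxy : ∀ n, N ≤ n → x n = y n) (i : ℕ) :
    SS T e m y i = SS T e m x i +
      ∑ n ∈ Finset.range N, ((if y n then (1 : ℝ) else 0) - (if x n then 1 else 0)) * e n (T i) := by
  have h1 : ∀ z : ℕ → Bool, ∀ L, m i ≤ L → SS T e m z i =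
      ∑ n ∈ Finset.range L, if z n then e n (T i) else 0 := by
    intro z L hL
    unfold SS
    apply Finset.sum_subset (Finset.range_mono hL)
    intro n _ hn
    rw [hz i n (by simpa using hn)]
    simp
  rw [h1 y (max (m i) N) (le_max_left _ _), h1 x (max (m i) N) (le_max_left _ _)]
  have h2 : ∑ n ∈ Finset.range N,
      ((if y n then (1 : ℝ) else 0) - (if x n then 1 else 0)) * e n (T i) =
      ∑ n ∈ Finset.range (max (m i) N),
        ((if y n then (1 : ℝ) else 0) - (if x n then 1 else 0)) * e n (T i) := by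
    apply Finset.sum_subset (Finset.range_mono (le_max_right _ _))
    intro n _ hn
    rw [hxy n (by simpa using hn)]
    simp
  rw [h2, ← Finset.sum_add_distrib]
  refine Finset.sum_congr rfl fun n _ => ?_
  rcases hx : x n <;> rcases hy : y n <;> simp

section main

variable [CompactSpace K] [T2Space K]

/-- every functional is measurable for the Baire `σ`-algebra of the pointwise topology -/
def WM (K : Type*) [TopologicalSpace K] [CompactSpace K] : Prop :=
  ∀ (φ : StrongDual ℝ C(K, ℝ)) (r : ℝ), MeasurableSet[Ba (tp K)] {f : C(K, ℝ) | r < φ f}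

omit [T2Space K] in
theorem ba_le : Ba (tp K) ≤ Ba (tw K) := by
  unfold Ba
  apply iSup_le
  rintro ⟨F, hF⟩
  have hid : @Continuous _ _ (tw K) (tp K) (id : C(K, ℝ) → C(K, ℝ)) := by
    apply continuous_induced_rng.2
    have h1 : @Continuous _ _ (tw K) _ (fun (f : C(K, ℝ)) (φ : StrongDual ℝ C(K, ℝ)) => φ f) :=
      continuous_induced_dom
    have h2 : Continuous (fun (v : StrongDual ℝ C(K, ℝ) → ℝ) (x : K) =>
        v (ContinuousMap.evalCLM ℝ x)) :=
      continuous_pi fun x => continuous_apply _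
    exact @Continuous.comp C(K, ℝ) (StrongDual ℝ C(K, ℝ) → ℝ) (K → ℝ) (tw K) _ _
      (fun f φ => φ f) (fun v x => v (ContinuousMap.evalCLM ℝ x)) h2 h1
  have hFc : @Continuous _ _ (tw K) _ (F ∘ id) :=
    @Continuous.comp _ _ _ (tw K) (tp K) _ _ _ hF hid
  exact le_iSup (fun f : {f : C(K, ℝ) → ℝ // @Continuous C(K, ℝ) ℝ (tw K) _ f} =>
    MeasurableSpace.comap f.1 (borel ℝ)) ⟨F, hFc⟩

omit [T2Space K] in
theorem wm_of_le (hle : Ba (tw K) ≤ Ba (tp K)) : WM K := by
  intro φ r
  have hc : @Continuous _ _ (tw K) _ (fun f : C(K, ℝ) => φ f) :=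
    @Continuous.comp C(K, ℝ) (StrongDual ℝ C(K, ℝ) → ℝ) ℝ (tw K) _ _
      (fun f ψ => ψ f) (fun v => v φ) (continuous_apply φ) continuous_induced_dom
  have h2 : MeasurableSpace.comap (fun f : C(K, ℝ) => φ f) (borel ℝ) ≤ Ba (tw K) :=
    le_iSup (fun f : {f : C(K, ℝ) → ℝ // @Continuous C(K, ℝ) ℝ (tw K) _ f} =>
      MeasurableSpace.comap f.1 (borel ℝ)) ⟨_, hc⟩
  apply hle
  apply h2
  exact ⟨Ioi r, by rw [← BorelSpace.measurable_eq (α := ℝ)]; exact measurableSet_Ioi, rfl⟩

omit [T2Space K] in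
theorem wm_image {L : Type*} [TopologicalSpace L] [CompactSpace L] (π : C(K, L))
    (hπ : Function.Surjective π) (hK : WM K) : WM L := by
  intro φ r
  -- the isometric embedding of `C(L)` into `C(K)`
  let R : C(L, ℝ) →ₗᵢ[ℝ] C(K, ℝ) :=
    { toFun := fun f => f.comp π
      map_add' := fun f g => rfl
      map_smul' := fun c f => rfl
      norm_map' := by
        intro f
        change ‖f.comp π‖ = ‖f‖
        apply le_antisymm
        · rw [ContinuousMap.norm_le _ (norm_nonneg _)]
          intro x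
          exact f.norm_coe_le_norm (π x)
        · rw [ContinuousMap.norm_le _ (norm_nonneg _)]
          intro y
          obtain ⟨x, rfl⟩ := hπ y
          exact (f.comp π).norm_coe_le_norm x }
  have hR : ∀ f, R f = f.comp π := fun f => rfl
  obtain ⟨ψ, hψ, -⟩ := exists_extension_norm_eq (LinearMap.range R.toLinearMap)
    (φ.comp (R.equivRange.symm.toContinuousLinearEquiv : _ →L[ℝ] _))
  have hψR : ∀ f, ψ (R f) = φ f := by
    intro f
    have h1 := hψ (R.equivRange f)
    have h2 : ((R.equivRange f : LinearMap.range R.toLinearMap) : C(K, ℝ)) = R f := rfl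
    rw [h2] at h1
    rw [h1]
    simp
  -- continuity of `R` for the pointwise topologies
  have hRc : @Continuous _ _ (tp L) (tp K) (fun f : C(L, ℝ) => f.comp π) := by
    apply continuous_induced_rng.2
    have h1 : @Continuous _ _ (tp L) _ (fun (f : C(L, ℝ)) (x : L) => f x) := continuous_induced_dom
    have h2 : Continuous (fun (v : L → ℝ) (x : K) => v (π x)) :=
      continuous_pi fun x => continuous_apply (π x)
    exact @Continuous.comp C(L, ℝ) (L → ℝ) (K → ℝ) (tp L) _ _ (fun f x => f x)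
      (fun v x => v (π x)) h2 h1
  have hcomap : MeasurableSpace.comap (fun f : C(L, ℝ) => f.comp π) (Ba (tp K)) ≤ Ba (tp L) := by
    unfold Ba
    rw [MeasurableSpace.comap_iSup]
    apply iSup_le
    rintro ⟨F, hF⟩
    rw [MeasurableSpace.comap_comp]
    have hFc : @Continuous _ _ (tp L) _ (F ∘ fun f : C(L, ℝ) => f.comp π) :=
      @Continuous.comp _ _ _ (tp L) (tp K) _ _ _ hF hRc
    exact le_iSup (fun f : {f : C(L, ℝ) → ℝ // @Continuous C(L, ℝ) ℝ (tp L) _ f} =>
      MeasurableSpace.comap f.1 (borel ℝ)) ⟨_, hFc⟩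
  apply hcomap
  refine ⟨_, hK ψ r, ?_⟩
  ext f
  change r < ψ (f.comp π) ↔ r < φ f
  rw [← hψR f, hR]

/-- positive normalised functionals without atoms -/
structure Diffuse (φ : StrongDual ℝ C(K, ℝ)) : Prop where
  pos : ∀ f : C(K, ℝ), (∀ x, 0 ≤ f x) → 0 ≤ φ f
  one : φ 1 = 1
  diffuse : ∀ t : K, ∀ ε > 0, ∃ a : C(K, ℝ), (∀ x, 0 ≤ a x ∧ a x ≤ 1) ∧ a t = 1 ∧ φ a ≤ ε

theorem core [Nonempty K] (φ : StrongDual ℝ C(K, ℝ)) (hφ : Diffuse φ)
    (hPU : ∀ (T : ℕ → K) (a : ℕ → C(K, ℝ)), (∀ n x, 0 ≤ a n x ∧ a n x ≤ 1) →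
      (∀ n, a n (T n) = 1) → ∃ e m, PU T a e m) :
    ¬ WM K := by
  classical
  intro hle
  -- the functional is determined by a countable set, in a Borel way
  have hB : ∀ r : ℝ, ∃ B : Set (K → ℝ), MeasurableSet B ∧ ∀ f : C(K, ℝ), (fun x => f x) ∈ B ↔ r < φ f := by
    intro r
    obtain ⟨B, hB1, hB2⟩ := Ba_tp_le _ (hle φ r)
    refine ⟨B, hB1, fun f => ?_⟩
    have : f ∈ (fun (f : C(K, ℝ)) (x : K) => f x) ⁻¹' B ↔ f ∈ {f : C(K, ℝ) | r < φ f} := by
      rw [hB2]
    exact this
  choose B hBm hBφ using hB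
  choose T0 hT0c hT0 using fun r : ℚ => pi_determined (B r) (hBm r)
  obtain ⟨T, hT⟩ : ∃ T : ℕ → K, ∀ r : ℚ, ∀ t ∈ T0 r, ∃ i, T i = t := by
    have hc : (⋃ r, T0 r ∪ {Classical.arbitrary K}).Countable :=
      countable_iUnion fun r => (hT0c r).union (countable_singleton _)
    have hne : (⋃ r, T0 r ∪ {Classical.arbitrary K}).Nonempty :=
      ⟨Classical.arbitrary K, mem_iUnion.2 ⟨0, Or.inr rfl⟩⟩
    obtain ⟨T, hT⟩ := hc.exists_eq_range hne
    refine ⟨T, fun r t ht => ?_⟩
    have : t ∈ range T := by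
      rw [← hT]
      exact mem_iUnion.2 ⟨r, Or.inl ht⟩
    exact this
  have hdet : ∀ r : ℚ, ∀ u v : K → ℝ, (∀ i, u (T i) = v (T i)) → (u ∈ B r ↔ v ∈ B r) := by
    intro r u v huv
    apply hT0 r u v
    intro t ht
    obtain ⟨i, rfl⟩ := hT r t ht
    exact huv i
  have hφdet : ∀ f g : C(K, ℝ), (∀ i, f (T i) = g (T i)) → φ f = φ g := by
    intro f g hfg
    by_contra hne
    rcases lt_or_gt_of_ne hne with h | h
    · obtain ⟨q, hq1, hq2⟩ := exists_rat_btwn h
      have h1 := (hdet q _ _ (fun i => (hfg i).symm)).1 ((hBφ q g).2 hq2)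
      exact lt_asymm hq1 ((hBφ q f).1 h1)
    · obtain ⟨q, hq1, hq2⟩ := exists_rat_btwn h
      have h1 := (hdet q _ _ (fun i => hfg i)).1 ((hBφ q f).2 hq2)
      exact lt_asymm hq1 ((hBφ q g).1 h1)
  -- small neighbourhoods
  choose a ha01 haT haφ using fun i : ℕ => hφ.diffuse (T i) ((1 / 8) * (1 / 2) ^ i) (by positivity)
  obtain ⟨e, m, hPU⟩ := hPU T a ha01 haT
  set b : ℕ → ℝ := fun n => φ (e n) with hb
  have hb0 : ∀ n, 0 ≤ b n := fun n => hφ.pos _ (hPU.nonneg n)
  have hbs : ∀ l, ∑ n ∈ Finset.range l, b n ≤ 1 / 2 := by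
    intro l
    have h1 : ∑ n ∈ Finset.range l, b n = φ (∑ n ∈ Finset.range l, e n) := by
      rw [map_sum]
    have h2 : 0 ≤ φ ((2 : ℝ) • (∑ n ∈ Finset.range l, a n) - ∑ n ∈ Finset.range l, e n) := by
      apply hφ.pos
      intro x
      have := hPU.bound l x
      simp only [ContinuousMap.sub_apply, ContinuousMap.smul_apply, ContinuousMap.sum_apply,
        smul_eq_mul]
      linarith
    rw [map_sub, map_smul, map_sum, smul_eq_mul] at h2
    have h3 : ∑ n ∈ Finset.range l, φ (a n) ≤ ∑ n ∈ Finset.range l, (1 / 8) * (1 / 2 : ℝ) ^ n :=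
      Finset.sum_le_sum fun n _ => haφ n
    have h4 : ∑ n ∈ Finset.range l, (1 / 8) * (1 / 2 : ℝ) ^ n ≤ 1 / 4 := by
      rw [← Finset.mul_sum, geom_sum_eq (by norm_num)]
      have h5 : (0 : ℝ) ≤ (1 / 2) ^ l := by positivity
      have h6 : (((1 / 2 : ℝ) ^ l - 1) / (1 / 2 - 1)) = 2 * (1 - (1 / 2) ^ l) := by ring
      rw [h6]
      linarith
    rw [h1]
    linarith
  have hbsum : Summable b := summable_of_sum_range_le hb0 hbs
  have hbt : ∑' n, b n ≤ 1 / 2 := hbsum.tsum_le_of_sum_range_le hbs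
  set Ψ : (ℕ → Bool) → ℝ := fun z => ∑' n, if z n then b n else 0 with hΨ
  have hΨs : ∀ z : ℕ → Bool, Summable (fun n => if z n then b n else 0) := by
    intro z
    apply Summable.of_nonneg_of_le _ _ hbsum
    · intro n
      split_ifs
      · exact hb0 n
      · exact le_rfl
    · intro n
      split_ifs
      · exact le_rfl
      · exact hb0 n
  have hΨc : Continuous Ψ := by
    apply continuous_tsum (u := b)
    · intro n
      have : (fun z : ℕ → Bool => if z n then b n else 0) =
          (fun c : Bool => if c then b n else 0) ∘ (fun z : ℕ → Bool => z n) := rfl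
      rw [this]
      exact continuous_of_discreteTopology.comp (continuous_apply n)
    · exact hbsum
    · intro n z
      split_ifs
      · rw [Real.norm_of_nonneg (hb0 n)]
      · rw [norm_zero]
        exact hb0 n
  -- the Borel sets in the Cantor space
  set uz : (ℕ → Bool) → K → ℝ := fun z y =>
    if h : ∃ i, T i = y then SS T e m z h.choose else 0 with huz
  have huzm : Measurable uz := by
    apply measurable_pi_lambda
    intro y
    by_cases h : ∃ i, T i = y
    · simp only [huz, h, dif_pos]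
      unfold SS
      apply Finset.measurable_sum
      intro n _
      have : (fun z : ℕ → Bool => if z n then e n (T h.choose) else 0) =
          (fun c : Bool => if c then e n (T h.choose) else 0) ∘ (fun z : ℕ → Bool => z n) := rfl
      rw [this]
      exact (measurable_of_countable _).comp (measurable_pi_apply n)
    · simp only [huz, h, dif_neg, not_false_eq_true]
      exact measurable_const
  set V : Set (ℕ → Bool) := {z | ∃ h : C(K, ℝ), ∀ i, h (T i) = SS T e m z i} with hV
  have hVφ : ∀ z (h : C(K, ℝ)), (∀ i, h (T i) = SS T e m z i) → ∀ r : ℚ,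
      (uz z ∈ B r ↔ (r : ℝ) < φ h) := by
    intro z h hh r
    rw [← hBφ r h]
    apply hdet r
    intro i
    have hex : ∃ j, T j = T i := ⟨i, rfl⟩
    have h1 : uz z (T i) = SS T e m z hex.choose := by
      simp only [huz]
      rw [dif_pos hex]
    rw [h1, ← hh, hex.choose_spec]
  have hG : ∀ r : ℚ, ∃ U : Set (ℕ → Bool), IsOpen U ∧
      ∀ᶠ z in residual (ℕ → Bool), (uz z ∈ B r ↔ z ∈ U) := by
    intro r
    have h1 : MeasurableSet (uz ⁻¹' (B r)) := huzm (hBm r)
    obtain ⟨U, hU, hUe⟩ := h1.residualEq_isOpen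
    refine ⟨U, hU, ?_⟩
    filter_upwards [hUe] with z hz
    have : (z ∈ uz ⁻¹' (B r)) = (z ∈ U) := hz
    exact iff_of_eq this
  choose U hUo hUe using hG
  set G0 : Set (ℕ → Bool) := {z | ∀ r : ℚ, uz z ∈ B r ↔ z ∈ U r} with hG0
  have hG0r : G0 ∈ residual (ℕ → Bool) := by
    have : ∀ᶠ z in residual (ℕ → Bool), ∀ r : ℚ, (uz z ∈ B r ↔ z ∈ U r) :=
      eventually_countable_forall.2 hUe
    exact this
  -- invariance under finite modifications
  set fl : Finset ℕ → (ℕ → Bool) → (ℕ → Bool) := fun F z n => xor (z n) (decide (n ∈ F)) with hfl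
  have hflc : ∀ F, Continuous (fl F) := by
    intro F
    apply continuous_pi
    intro n
    have : (fun z : ℕ → Bool => fl F z n) =
        (fun c : Bool => xor c (decide (n ∈ F))) ∘ (fun z : ℕ → Bool => z n) := rfl
    rw [this]
    exact continuous_of_discreteTopology.comp (continuous_apply n)
  have hflfl : ∀ F z, fl F (fl F z) = z := by
    intro F z
    ext n
    simp [hfl]
  set G : Set (ℕ → Bool) := {z | ∀ F, fl F z ∈ G0} with hGdef
  have hGr : G ∈ residual (ℕ → Bool) := by
    have : ∀ᶠ z in residual (ℕ → Bool), ∀ F, fl F z ∈ G0 := by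
      apply eventually_countable_forall.2
      intro F
      let H : (ℕ → Bool) ≃ₜ (ℕ → Bool) :=
        { toFun := fl F, invFun := fl F, left_inv := hflfl F, right_inv := hflfl F
          continuous_toFun := hflc F, continuous_invFun := hflc F }
      exact (tendsto_residual_of_isOpenMap H.continuous H.isOpenMap) hG0r
    exact this
  -- constancy
  have hconst : ∀ x x' : ℕ → Bool, x ∈ G → x' ∈ G → ∀ h h' : C(K, ℝ),
      (∀ i, h (T i) = SS T e m x i) → (∀ i, h' (T i) = SS T e m x' i) →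
      φ h' - Ψ x' ≤ φ h - Ψ x := by
    intro x x' hx hx' h h' hh hh'
    by_contra hcon
    push Not at hcon
    -- modifications of x converging to x'
    set xn : ℕ → ℕ → Bool := fun N n => if n < N then x' n else x n with hxn
    have hxnfl : ∀ N, xn N = fl ((Finset.range N).filter (fun n => x n ≠ x' n)) x := by
      intro N
      ext n
      simp only [hxn, hfl, Finset.mem_filter, Finset.mem_range]
      by_cases hn : n < N
      · simp only [hn, if_true, true_and]
        rcases hx1 : x n <;> rcases hx2 : x' n <;> simp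
      · simp [hn]
    have hxnG : ∀ N, xn N ∈ G0 := fun N => by
      rw [hxnfl]
      exact hx _
    have hxnlim : Tendsto xn atTop (𝓝 x') := by
      rw [tendsto_pi_nhds]
      intro n
      apply tendsto_const_nhds.congr'
      filter_upwards [eventually_gt_atTop n] with N hN
      simp [hxn, hN]
    -- the functions
    set hn : ℕ → C(K, ℝ) := fun N => h + ∑ n ∈ Finset.range N,
      ((if xn N n then (1 : ℝ) else 0) - (if x n then 1 else 0)) • e n with hhn
    have hhnT : ∀ N i, hn N (T i) = SS T e m (xn N) i := by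
      intro N i
      rw [SS_mod T e m hPU.zero x (xn N) N (fun n hn => by simp [hxn, not_lt.2 hn]) i, ← hh i]
      simp [hhn, ContinuousMap.sum_apply]
    have hφhn : ∀ N, φ (hn N) - Ψ (xn N) = φ h - Ψ x := by
      intro N
      have h1 : Ψ (xn N) = Ψ x + ∑ n ∈ Finset.range N,
          ((if xn N n then (1 : ℝ) else 0) - (if x n then 1 else 0)) * b n := by
        have h2 : Ψ (xn N) - Ψ x = ∑' n, ((if xn N n then b n else 0) - if x n then b n else 0) := by
          rw [(hΨs _).tsum_sub (hΨs _)]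
        have h3 : ∑' n, ((if xn N n then b n else 0) - if x n then b n else 0) =
            ∑ n ∈ Finset.range N, ((if xn N n then b n else 0) - if x n then b n else 0) := by
          apply tsum_eq_sum
          intro n hn
          have : xn N n = x n := by
            simp only [Finset.mem_range] at hn
            simp [hxn, hn]
          rw [this, sub_self]
        have h4 : ∑ n ∈ Finset.range N, ((if xn N n then b n else 0) - if x n then b n else 0) =
            ∑ n ∈ Finset.range N,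
              ((if xn N n then (1 : ℝ) else 0) - (if x n then 1 else 0)) * b n := by
          refine Finset.sum_congr rfl fun n _ => ?_
          rcases xn N n <;> rcases x n <;> simp
        linarith
      have h5 : φ (hn N) = φ h + ∑ n ∈ Finset.range N,
          ((if xn N n then (1 : ℝ) else 0) - (if x n then 1 else 0)) * b n := by
        simp only [hhn, map_add, map_sum, map_smul, smul_eq_mul, hb]
      rw [h1, h5]
      ring
    -- choose r
    have hlt : φ h - Ψ x + Ψ x' < φ h' := by linarith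
    obtain ⟨r, hr1, hr2⟩ := exists_rat_btwn hlt
    have hx'B : uz x' ∈ B r := (hVφ x' h' hh' r).2 hr2
    have hx'G0 : x' ∈ G0 := by
      have := hx' ∅
      have he : fl ∅ x' = x' := by
        ext n
        simp [hfl]
      rwa [he] at this
    have hx'U : x' ∈ U r := (hx'G0 r).1 hx'B
    have hev : ∀ᶠ N in atTop, xn N ∈ U r := hxnlim.eventually ((hUo r).mem_nhds hx'U)
    have hev2 : ∀ᶠ N in atTop, (r : ℝ) < φ h - Ψ x + Ψ (xn N) := by
      filter_upwards [hev] with N hN
      have h6 : uz (xn N) ∈ B r := ((hxnG N) r).2 hN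
      have h7 := (hVφ (xn N) (hn N) (hhnT N) r).1 h6
      have h8 := hφhn N
      linarith
    have hlim : Tendsto (fun N => φ h - Ψ x + Ψ (xn N)) atTop (𝓝 (φ h - Ψ x + Ψ x')) :=
      tendsto_const_nhds.add ((hΨc.tendsto x').comp hxnlim)
    have h9 := le_of_tendsto_of_tendsto tendsto_const_nhds hlim (hev2.mono fun _ h => h.le)
    linarith
  have hconst' : ∀ x x' : ℕ → Bool, x ∈ G → x' ∈ G → ∀ h h' : C(K, ℝ),
      (∀ i, h (T i) = SS T e m x i) → (∀ i, h' (T i) = SS T e m x' i) →
      φ h' - Ψ x' = φ h - Ψ x := fun x x' hx hx' h h' hh hh' =>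
    le_antisymm (hconst x x' hx hx' h h' hh hh') (hconst x' x hx' hx h' h hh' hh)
  -- the blocks
  obtain ⟨w, p, hpm, hp0, hw⟩ := block_lemma G hGr
  have hEinf : {k : ℕ | k % 2 = 0}.Infinite := by
    apply Set.infinite_of_injective_forall_mem (f := fun k : ℕ => 2 * k)
    · intro a b hab
      simpa using hab
    · intro k
      simp
  have hOinf : {k : ℕ | k % 2 = 1}.Infinite := by
    apply Set.infinite_of_injective_forall_mem (f := fun k : ℕ => 2 * k + 1)
    · intro a b hab
      simpa using hab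
    · intro k
      simp only [mem_ofPred_eq]
      omega
  obtain ⟨M0, hM0, hM0i, h0, hh0⟩ := hPU.interp w p hpm hp0 _ hEinf
  obtain ⟨M1, hM1, hM1i, h1, hh1⟩ := hPU.interp w p hpm hp0 _ hOinf
  obtain ⟨M2, hM2, hM2i, h2, hh2⟩ := hPU.interp (fun n => !w n) p hpm hp0 _ hOinf
  have hexk : ∀ n, ∃ k, p k ≤ n ∧ n < p (k + 1) := by
    intro n
    induction n with
    | zero =>
      have h01 : p 0 < p (0 + 1) := hpm (show 0 < 0 + 1 by omega)
      exact ⟨0, by omega, by omega⟩
    | succ n ih =>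
      obtain ⟨k, h1, h2⟩ := ih
      by_cases h : n + 1 < p (k + 1)
      · exact ⟨k, by omega, h⟩
      · refine ⟨k + 1, by omega, ?_⟩
        have := hpm (show k + 1 < k + 1 + 1 by omega)
        omega
  -- disjointness of blocks with different parity
  have hdisj : ∀ (w1 w2 : ℕ → Bool) (M M' : Set ℕ), M ⊆ {k : ℕ | k % 2 = 0} →
      M' ⊆ {k : ℕ | k % 2 = 1} → ∀ n, ¬ (blk w1 p M n = true ∧ blk w2 p M' n = true) := by
    intro w1 w2 M M' hM hM' n ⟨ha, hb⟩
    obtain ⟨k, hk1, hk2⟩ := hexk n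
    by_cases hkM : k ∈ M
    · have hk' : k ∉ M' := fun h => by
        have h3 := hM hkM
        have h4 := hM' h
        simp only [mem_ofPred_eq] at h3 h4
        omega
      rw [blk_of_notMem hpm hk' hk1 hk2] at hb
      exact absurd hb (by simp)
    · rw [blk_of_notMem hpm hkM hk1 hk2] at ha
      exact absurd ha (by simp)
  have hx0G : blk w p M0 ∈ G := by
    apply hw
    apply hM0i.mono
    intro k hk n hn1 hn2
    exact blk_of_mem hk hn1 hn2
  have hx1G : blk w p M1 ∈ G := by
    apply hw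
    apply hM1i.mono
    intro k hk n hn1 hn2
    exact blk_of_mem hk hn1 hn2
  have hx01G : (fun n => blk w p M0 n || blk w p M1 n) ∈ G := by
    apply hw
    apply hM0i.mono
    intro k hk n hn1 hn2
    have hk' : k ∉ M1 := fun h => by
      have h3 := hM0 hk
      have h4 := hM1 h
      simp only [mem_ofPred_eq] at h3 h4
      omega
    rw [blk_of_mem hk hn1 hn2, blk_of_notMem hpm hk' hn1 hn2, Bool.or_false]
  have hx02G : (fun n => blk w p M0 n || blk (fun n => !w n) p M2 n) ∈ G := by
    apply hw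
    apply hM0i.mono
    intro k hk n hn1 hn2
    have hk' : k ∉ M2 := fun h => by
      have h3 := hM0 hk
      have h4 := hM2 h
      simp only [mem_ofPred_eq] at h3 h4
      omega
    rw [blk_of_mem hk hn1 hn2, blk_of_notMem hpm hk' hn1 hn2, Bool.or_false]
  have hx02cG : (fun n => !(blk w p M0 n || blk (fun n => !w n) p M2 n)) ∈ G := by
    apply hw
    apply hM2i.mono
    intro k hk n hn1 hn2
    have hk' : k ∉ M0 := fun h => by
      have h3 := hM2 hk
      have h4 := hM0 h
      simp only [mem_ofPred_eq] at h3 h4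
      omega
    rw [blk_of_mem hk hn1 hn2, blk_of_notMem hpm hk' hn1 hn2, Bool.false_or, Bool.not_not]
  have hΨor : ∀ x y : ℕ → Bool, (∀ n, ¬ (x n = true ∧ y n = true)) →
      Ψ (fun n => x n || y n) = Ψ x + Ψ y := by
    intro x y hxy
    rw [hΨ]
    simp only
    rw [← (hΨs x).tsum_add (hΨs y)]
    refine tsum_congr fun n => ?_
    have h3 := hxy n
    clear hxy
    by_cases hx : x n = true <;> by_cases hy : y n = true
    · exact absurd ⟨hx, hy⟩ h3
    · simp [hx, hy]
    · simp [hx, hy]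
    · simp [hx, hy]
  have hΨnot : ∀ x : ℕ → Bool, Ψ (fun n => !x n) = ∑' n, b n - Ψ x := by
    intro x
    rw [hΨ]
    simp only
    rw [← hbsum.tsum_sub (hΨs x)]
    refine tsum_congr fun n => ?_
    by_cases hx : x n = true <;> simp [hx]
  -- additivity
  have hd01 := hdisj w w M0 M1 hM0 hM1
  have hd02 := hdisj w (fun n => !w n) M0 M2 hM0 hM2
  have e01 : ∀ i, (h0 + h1) (T i) = SS T e m (fun n => blk w p M0 n || blk w p M1 n) i := by
    intro i
    rw [SS_or T e m _ _ hd01, ← hh0, ← hh1]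
    rfl
  have e02 : ∀ i, (h0 + h2) (T i) =
      SS T e m (fun n => blk w p M0 n || blk (fun n => !w n) p M2 n) i := by
    intro i
    rw [SS_or T e m _ _ hd02, ← hh0, ← hh2]
    rfl
  have e02c : ∀ i, (1 - (h0 + h2)) (T i) =
      SS T e m (fun n => !(blk w p M0 n || blk (fun n => !w n) p M2 n)) i := by
    intro i
    rw [SS_not, hPU.one, ← e02]
    rfl
  have c1 := hconst' _ _ hx0G hx1G h0 h1 hh0 hh1
  have c2 := hconst' _ _ hx0G hx01G h0 (h0 + h1) hh0 e01
  have c3 := hconst' _ _ hx0G hx02G h0 (h0 + h2) hh0 e02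
  have c4 := hconst' _ _ hx0G hx02cG h0 (1 - (h0 + h2)) hh0 e02c
  rw [hΨor _ _ hd01, map_add] at c2
  rw [hΨnot, map_sub, hφ.one] at c4
  linarith

end main

end Pool.Agent.Helper96.Baire
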