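import Pool.Agent.Helper96.Baire.Diffuse

set_option autoImplicit false

/-!
# Totally disconnected spaces with subsequential interpolation of clopen sets
-/

namespace Pool.Agent.Helper96.Baire

open Set Filter Topology

theorem exists_half (E : Set ℕ) (hE : E.Infinite) :
    ∃ E' ⊆ E, E'.Infinite ∧ (E \ E').Infinite := by
  set e := hE.natEmbedding with he
  refine ⟨range (fun k : ℕ => ((e (2 * k) : E) : ℕ)), ?_, ?_, ?_⟩
  · rintro _ ⟨k, rfl⟩
    exact (e (2 * k)).2
  · apply infinite_range_of_injective
    intro a b hab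
    have : e (2 * a) = e (2 * b) := Subtype.ext hab
    have := e.injective this
    omega
  · apply Set.infinite_of_injective_forall_mem (f := fun k : ℕ => ((e (2 * k + 1) : E) : ℕ))
    · intro a b hab
      have : e (2 * a + 1) = e (2 * b + 1) := Subtype.ext hab
      have := e.injective this
      omega
    · intro k
      refine ⟨(e (2 * k + 1)).2, ?_⟩
      rintro ⟨j, hj⟩
      have : e (2 * j) = e (2 * k + 1) := Subtype.ext hj
      have := e.injective this
      omega

variable {K : Type*} [TopologicalSpace K]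

/-- continuous indicator of a clopen set -/
noncomputable def chi (W : Set K) (hW : IsClopen W) : C(K, ℝ) :=
  ⟨W.indicator 1, Continuous.indicator (fun a ha => by rw [hW.frontier_eq] at ha; exact ha.elim)
    continuous_one⟩

theorem chi_mem {W : Set K} {hW : IsClopen W} {x : K} (hx : x ∈ W) : chi W hW x = 1 := by
  change W.indicator 1 x = 1
  rw [indicator_of_mem hx]
  rfl

theorem chi_notMem {W : Set K} {hW : IsClopen W} {x : K} (hx : x ∉ W) : chi W hW x = 0 := by
  change W.indicator 1 x = 0
  rw [indicator_of_notMem hx]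

variable [CompactSpace K] [T2Space K]

theorem split_of_clopen [TotallyDisconnectedSpace K] [Infinite K] (hS : SIPClopen K) :
    ∃ x : ℕ → K, Split x := by
  obtain ⟨U, hUi, hUo, hUd⟩ := exists_seq_infinite_isOpen_pairwise_disjoint K
  choose x hx using fun n => (hUi n).nonempty
  choose A hA hxA hAU using fun n => compact_exists_isClopen_in_isOpen (hUo n) (hx n)
  refine ⟨x, fun E hE => ?_⟩
  obtain ⟨E', hE'E, hE'i, hEE'⟩ := exists_half E hE
  obtain ⟨N, hN, hNi, B, hB, h1, h2⟩ := hS A hA
    (fun i j hij => (hUd hij).mono (hAU i) (hAU j)) E' hE'i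
  refine ⟨N, hN.trans hE'E, hNi, hEE'.mono (sdiff_subset_sdiff_right hN), chi B hB, ?_, ?_⟩
  · intro n hn
    exact chi_mem (h1 n hn (hxA n))
  · intro n hn
    apply chi_notMem
    intro hxB
    exact disjoint_left.1 (h2 n hn) (hxA n) hxB

omit [CompactSpace K] [T2Space K] in
theorem sum_chi {W : ℕ → Set K} (hW : ∀ n, IsClopen (W n))
    (hd : ∀ i j, i ≠ j → Disjoint (W i) (W j)) (z : ℕ → Bool) {y : K} {n0 l : ℕ}
    (h0 : n0 < l) (hy : y ∈ W n0) :
    ∑ n ∈ Finset.range l, (if z n then chi (W n) (hW n) y else 0) = if z n0 then 1 else 0 := by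
  rw [Finset.sum_eq_single n0]
  · rw [chi_mem hy]
  · intro n _ hn
    have : y ∉ W n := fun h => disjoint_left.1 (hd n n0 hn) h hy
    rw [chi_notMem this]
    simp
  · intro h
    exact absurd (Finset.mem_range.2 h0) h

theorem pu_of_clopen [TotallyDisconnectedSpace K] (hS : SIPClopen K) (T : ℕ → K)
    (a : ℕ → C(K, ℝ)) (ha : ∀ n x, 0 ≤ a n x ∧ a n x ≤ 1) (haT : ∀ n, a n (T n) = 1) :
    ∃ e m, PU T a e m := by
  classical
  have hUo : ∀ n, IsOpen {x | 1 / 2 < a n x} := fun n => isOpen_lt continuous_const (a n).continuous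
  choose U hU hTU hUa using fun n => compact_exists_isClopen_in_isOpen (x := T n) (hUo n) (by
    change 1 / 2 < a n (T n)
    rw [haT n]
    norm_num)
  set W : ℕ → Set K := fun n => U n \ ⋃ j ∈ Finset.range n, U j with hWdef
  have hW : ∀ n, IsClopen (W n) := by
    intro n
    apply (hU n).diff
    exact isClopen_biUnion_finset fun j _ => hU j
  have hWU : ∀ n, W n ⊆ U n := fun n => sdiff_subset
  have hWd : ∀ i j, i ≠ j → Disjoint (W i) (W j) := by
    have key : ∀ i j, i < j → Disjoint (W i) (W j) := by
      intro i j hij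
      rw [disjoint_left]
      intro x hxi hxj
      apply hxj.2
      simp only [mem_iUnion]
      exact ⟨i, Finset.mem_range.2 hij, hxi.1⟩
    intro i j hij
    rcases lt_or_gt_of_ne hij with h | h
    · exact key i j h
    · exact (key j i h).symm
  have hTW : ∀ i, ∃ n, n < i + 1 ∧ T i ∈ W n := by
    intro i
    have hex : ∃ n, T i ∈ U n := ⟨i, hTU i⟩
    refine ⟨Nat.find hex, ?_, ?_⟩
    · have := Nat.find_min' hex (hTU i)
      omega
    · refine ⟨Nat.find_spec hex, ?_⟩
      simp only [mem_iUnion, not_exists]
      intro j hj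
      exact Nat.find_min hex (Finset.mem_range.1 hj)
  choose ν hν1 hν2 using hTW
  refine ⟨fun n => chi (W n) (hW n), fun i => i + 1, ?_, ?_, ?_, ?_, ?_⟩
  · intro n x
    by_cases hx : x ∈ W n
    · rw [chi_mem hx]
      exact zero_le_one
    · rw [chi_notMem hx]
  · intro i
    have := sum_chi hW hWd (fun _ => true) (hν1 i) (hν2 i)
    simpa using this
  · intro i n hn
    apply chi_notMem
    intro h
    exact disjoint_left.1 (hWd (ν i) n (by have := hν1 i; omega)) (hν2 i) h
  · intro l x
    rw [Finset.mul_sum]
    apply Finset.sum_le_sum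
    intro n _
    by_cases hx : x ∈ W n
    · rw [chi_mem hx]
      have : 1 / 2 < a n x := hUa n (hWU n hx)
      linarith
    · rw [chi_notMem hx]
      have := (ha n x).1
      linarith
  · intro w p hp hp0 E hE
    set A : ℕ → Set K := fun j => ⋃ n ∈ Finset.Ico (p (j / 2)) (p (j / 2 + 1)),
      if w n = decide (j % 2 = 0) then W n else ∅ with hA
    have hAc : ∀ j, IsClopen (A j) := by
      intro j
      apply isClopen_biUnion_finset
      intro n _
      split_ifs
      · exact hW n
      · exact isClopen_empty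
    have hmem : ∀ j x, x ∈ A j ↔ ∃ n, p (j / 2) ≤ n ∧ n < p (j / 2 + 1) ∧
        w n = decide (j % 2 = 0) ∧ x ∈ W n := by
      intro j x
      simp only [hA, mem_iUnion, Finset.mem_Ico]
      constructor
      · rintro ⟨n, ⟨h1, h2⟩, h3⟩
        by_cases hw : w n = decide (j % 2 = 0)
        · rw [if_pos hw] at h3
          exact ⟨n, h1, h2, hw, h3⟩
        · rw [if_neg hw] at h3
          exact h3.elim
      · rintro ⟨n, h1, h2, hw, h3⟩
        refine ⟨n, ⟨h1, h2⟩, ?_⟩
        rw [if_pos hw]
        exact h3
    have hAd : Pairwise (Function.onFun Disjoint A) := by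
      intro i j hij
      change Disjoint (A i) (A j)
      rw [disjoint_left]
      intro x hxi hxj
      obtain ⟨n, h1, h2, h3, h4⟩ := (hmem i x).1 hxi
      obtain ⟨n', h1', h2', h3', h4'⟩ := (hmem j x).1 hxj
      have hnn : n = n' := by
        by_contra hne
        exact disjoint_left.1 (hWd n n' hne) h4 h4'
      subst hnn
      have hk := block_unique hp h1 h2 h1' h2'
      rw [h3] at h3'
      have h5 : (i % 2 = 0) ↔ (j % 2 = 0) := by
        simpa using h3'
      omega
    have hE' : ((fun k : ℕ => 2 * k) '' E).Infinite :=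
      hE.image (fun a _ b _ hab => by simpa using hab)
    obtain ⟨N, hN, hNi, B, hB, h1, h2⟩ := hS A hAc hAd _ hE'
    have hNeven : ∀ j ∈ N, ∃ k ∈ E, 2 * k = j := fun j hj => hN hj
    refine ⟨{k | 2 * k ∈ N}, ?_, ?_, chi B hB, ?_⟩
    · intro k hk
      obtain ⟨k', hk', h3⟩ := hNeven _ hk
      have : k' = k := by omega
      rw [← this]
      exact hk'
    · intro hfin
      apply hNi
      apply (hfin.image (fun k => 2 * k)).subset
      intro j hj
      obtain ⟨k, _, rfl⟩ := hNeven j hj
      exact ⟨k, hj, rfl⟩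
    · intro i
      have e1 := sum_chi hW hWd (blk w p {k | 2 * k ∈ N}) (hν1 i) (hν2 i)
      unfold SS
      rw [e1]
      -- the block of `ν i`
      have hexk : ∀ n, ∃ k, p k ≤ n ∧ n < p (k + 1) := by
        intro n
        induction n with
        | zero =>
          have h01 : p 0 < p (0 + 1) := hp (show 0 < 0 + 1 by omega)
          exact ⟨0, by omega, by omega⟩
        | succ n ih =>
          obtain ⟨k, h1, h2⟩ := ih
          by_cases h : n + 1 < p (k + 1)
          · exact ⟨k, by omega, h⟩
          · refine ⟨k + 1, by omega, ?_⟩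
            have := hp (show k + 1 < k + 1 + 1 by omega)
            omega
      obtain ⟨k, hk1, hk2⟩ := hexk (ν i)
      by_cases hw : w (ν i) = true
      · have hTA : T i ∈ A (2 * k) := by
          rw [hmem]
          have h3 : 2 * k / 2 = k := by omega
          rw [h3]
          refine ⟨ν i, hk1, hk2, ?_, hν2 i⟩
          rw [hw]
          symm
          exact decide_eq_true (by omega)
        by_cases hkN : 2 * k ∈ N
        · rw [chi_mem (h1 _ hkN hTA), blk_of_mem (show k ∈ {k | 2 * k ∈ N} from hkN) hk1 hk2,
            hw, if_pos rfl]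
        · have h4 : T i ∉ B := fun h => disjoint_left.1 (h2 _ hkN) hTA h
          rw [chi_notMem h4, blk_of_notMem hp (show k ∉ {k | 2 * k ∈ N} from hkN) hk1 hk2]
          simp
      · have hw' : w (ν i) = false := by simpa using hw
        have hTA : T i ∈ A (2 * k + 1) := by
          rw [hmem]
          have h3 : (2 * k + 1) / 2 = k := by omega
          rw [h3]
          refine ⟨ν i, hk1, hk2, ?_, hν2 i⟩
          rw [hw']
          symm
          exact decide_eq_false (by omega)
        have hnN : 2 * k + 1 ∉ N := by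
          intro h
          obtain ⟨k', _, h5⟩ := hNeven _ h
          omega
        have h4 : T i ∉ B := fun h => disjoint_left.1 (h2 _ hnN) hTA h
        rw [chi_notMem h4]
        by_cases hkN : 2 * k ∈ N
        · rw [blk_of_mem (show k ∈ {k | 2 * k ∈ N} from hkN) hk1 hk2, hw']
          simp
        · rw [blk_of_notMem hp (show k ∉ {k | 2 * k ∈ N} from hkN) hk1 hk2]
          simp

theorem main_clopen [TotallyDisconnectedSpace K] [Infinite K] (hS : SIPClopen K) :
    ¬ WM K := by
  obtain ⟨x, hx⟩ := split_of_clopen hS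
  obtain ⟨φ, hφ⟩ := exists_diffuse x hx
  exact core φ hφ (fun T a ha haT => pu_of_clopen hS T a ha haT)

end Pool.Agent.Helper96.Baire
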