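import Mathlib

set_option autoImplicit false

/-!
# Baire `σ`-algebras of `C(K)`: definitions
-/

namespace Pool.Agent.Helper96.Baire

open Set Filter Topology MeasureTheory

/-- The Baire `σ`-algebra of a topology: the smallest `σ`-algebra for which every continuous
real-valued function is measurable. -/
@[reducible] def Ba {X : Type*} (t : TopologicalSpace X) : MeasurableSpace X :=
  ⨆ f : {f : X → ℝ // @Continuous X ℝ t _ f}, MeasurableSpace.comap f.1 (borel ℝ)

/-- The topology of pointwise convergence on `C(K)`. -/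
@[reducible] def tp (K : Type*) [TopologicalSpace K] : TopologicalSpace C(K, ℝ) :=
  TopologicalSpace.induced (fun (f : C(K, ℝ)) (x : K) => f x) inferInstance

/-- The weak topology of the Banach space `C(K)`: the coarsest topology for which all norm
continuous linear functionals are continuous. -/
@[reducible] def tw (K : Type*) [TopologicalSpace K] [CompactSpace K] : TopologicalSpace C(K, ℝ) :=
  TopologicalSpace.induced (fun (f : C(K, ℝ)) (φ : StrongDual ℝ C(K, ℝ)) => φ f) inferInstance

/-- The subsequential interpolation property of the algebra of clopen sets: for every sequence of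
pairwise disjoint clopen sets `A n` and every infinite set `E` of indices there are an infinite
`N ⊆ E` and a clopen set containing `A n` for `n ∈ N` and disjoint from `A n` for `n ∉ N`. -/
def SIPClopen (K : Type*) [TopologicalSpace K] : Prop :=
  ∀ A : ℕ → Set K, (∀ n, IsClopen (A n)) → Pairwise (Function.onFun Disjoint A) →
    ∀ E : Set ℕ, E.Infinite → ∃ N ⊆ E, N.Infinite ∧ ∃ B : Set K, IsClopen B ∧
      (∀ n ∈ N, A n ⊆ B) ∧ ∀ n, n ∉ N → Disjoint (A n) B

/-- The subsequential interpolation property of `C(K)`: if `f n`, `g m` are continuous functions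
with values in `[0,1]`, the `f n` are pairwise disjoint and disjoint from all `g m`, then for some
infinite `M` there is a continuous function `h` which is equal to `f n` where `f n ≠ 0` for
`n ∈ M`, is equal to `0` where `f n ≠ 0` for `n ∉ M`, and is equal to `0` where some
`g m ≠ 0`. -/
def SIPFun (K : Type*) [TopologicalSpace K] : Prop :=
  ∀ f g : ℕ → C(K, ℝ), (∀ n x, 0 ≤ f n x ∧ f n x ≤ 1) → (∀ n x, 0 ≤ g n x ∧ g n x ≤ 1) →
    (∀ n m, n ≠ m → ∀ x, f n x * f m x = 0) → (∀ n m x, f n x * g m x = 0) →
    ∃ M : Set ℕ, M.Infinite ∧ ∃ h : C(K, ℝ), (∀ n ∈ M, ∀ x, f n x ≠ 0 → h x = f n x) ∧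
      (∀ n, n ∉ M → ∀ x, f n x ≠ 0 → h x = 0) ∧ ∀ m x, g m x ≠ 0 → h x = 0

/-- `F`-spaces: every cozero set is `C*`-embedded. -/
def FSpace (K : Type*) [TopologicalSpace K] : Prop :=
  ∀ u : C(K, ℝ), ∀ F : {x : K // u x ≠ 0} → ℝ, Continuous F → (∃ C : ℝ, ∀ x, |F x| ≤ C) →
    ∃ h : C(K, ℝ), ∀ x : {x : K // u x ≠ 0}, h x.1 = F x

end Pool.Agent.Helper96.Baire
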