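import Pool.Agent.Helper96.Baire.Core

set_option autoImplicit false

/-!
# Construction of a functional without atoms
-/

namespace Pool.Agent.Helper96.Baire

open Set Filter Topology

variable {K : Type*} [TopologicalSpace K]

/-- a sequence of points all of whose subsequences are split by continuous functions -/
def Split (x : ℕ → K) : Prop :=
  ∀ E : Set ℕ, E.Infinite → ∃ M ⊆ E, M.Infinite ∧ (E \ M).Infinite ∧ ∃ h : C(K, ℝ),
    (∀ n ∈ M, h (x n) = 1) ∧ ∀ n, n ∉ M → h (x n) = 0

/-- real value of a bit -/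
def bt (b : Bool) : ℝ := if b then 1 else 0

def Gd (x : ℕ → K) (k : ℕ) (h : ℕ → C(K, ℝ)) : Prop :=
  ∀ τ : ℕ → Bool, {n | ∀ j < k, h j (x n) = bt (τ j)}.Infinite

theorem gd_step (x : ℕ → K) (hx : Split x) (k : ℕ) (h : ℕ → C(K, ℝ)) (hk : Gd x k h) :
    ∃ h' : ℕ → C(K, ℝ), (∀ j < k, h' j = h j) ∧ Gd x (k + 1) h' := by
  classical
  set E : (Fin k → Bool) → Set ℕ := fun τ => {n | ∀ j : Fin k, h j (x n) = bt (τ j)} with hE
  have hEinf : ∀ τ, (E τ).Infinite := by
    intro τ
    apply (hk (fun n => if hn : n < k then τ ⟨n, hn⟩ else false)).mono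
    intro n hn j
    have := hn j j.2
    simpa using this
  have hEdisj : ∀ τ τ' n, n ∈ E τ → n ∈ E τ' → τ = τ' := by
    intro τ τ' n h1 h2
    ext j
    have h3 := (h1 j).symm.trans (h2 j)
    unfold bt at h3
    rcases hτ : τ j <;> rcases hτ' : τ' j <;> simp [hτ, hτ'] at h3 ⊢
  choose M hME hMi hEM g hg1 hg0 using fun τ => hx (E τ) (hEinf τ)
  have hgsum : ∀ τ n, n ∈ E τ → (∑ σ : Fin k → Bool, g σ) (x n) = g τ (x n) := by
    intro τ n hn
    rw [ContinuousMap.sum_apply, Finset.sum_eq_single τ]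
    · intro σ _ hσ
      apply hg0
      intro hnM
      exact hσ (hEdisj σ τ n (hME σ hnM) hn)
    · intro h
      exact absurd (Finset.mem_univ τ) h
  refine ⟨Function.update h k (∑ σ : Fin k → Bool, g σ), ?_, ?_⟩
  · intro j hj
    rw [Function.update_of_ne (by omega)]
  · intro τ
    set τ' : Fin k → Bool := fun j => τ j with hτ'
    have hin : ∀ n ∈ E τ', ∀ j < k,
        (Function.update h k (∑ σ : Fin k → Bool, g σ)) j (x n) = bt (τ j) := by
      intro n hn j hj
      rw [Function.update_of_ne (by omega)]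
      exact hn ⟨j, hj⟩
    rcases hb : τ k with _ | _
    · apply (hEM τ').mono
      rintro n ⟨hn1, hn2⟩ j hj
      rcases Nat.lt_succ_iff_lt_or_eq.1 hj with h1 | h1
      · exact hin n hn1 j h1
      · subst h1
        rw [Function.update_self, hgsum τ' n hn1, hg0 τ' n hn2, hb]
        rfl
    · apply (hMi τ').mono
      intro n hn j hj
      have hn1 := hME τ' hn
      rcases Nat.lt_succ_iff_lt_or_eq.1 hj with h1 | h1
      · exact hin n hn1 j h1
      · subst h1
        rw [Function.update_self, hgsum τ' n hn1, hg1 τ' n hn, hb]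
        rfl

theorem exists_indep (x : ℕ → K) (hx : Split x) : ∃ h : ℕ → C(K, ℝ), ∀ k, Gd x k h := by
  choose! f hf1 hf2 using gd_step x hx
  have h0 : Gd x 0 (fun _ => 0) := by
    intro τ
    have : {n : ℕ | ∀ j < 0, (0 : C(K, ℝ)) (x n) = bt (τ j)} = univ := by
      ext n
      simp
    rw [this]
    exact infinite_univ
  set hs : ℕ → ℕ → C(K, ℝ) := fun k => Nat.rec (fun _ => 0) (fun k h => f k h) k with hhs
  have hgd : ∀ k, Gd x k (hs k) := by
    intro k
    induction k with
    | zero => exact h0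
    | succ k ih => exact hf2 k (hs k) ih
  have hstab : ∀ k j, j < k → hs k j = hs (j + 1) j := by
    intro k
    induction k with
    | zero => intro j hj; omega
    | succ k ih =>
      intro j hj
      rcases Nat.lt_succ_iff_lt_or_eq.1 hj with h1 | h1
      · have h2 : hs (k + 1) j = hs k j := hf1 k (hs k) (hgd k) j h1
        rw [h2, ih j h1]
      · rw [h1]
  refine ⟨fun j => hs (j + 1) j, fun k τ => ?_⟩
  apply (hgd k τ).mono
  intro n hn j hj
  simp only
  rw [← hstab k j hj]
  exact hn j hj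

theorem prod_count (k : ℕ) : ∀ L, k ≤ L →
    (∏ j ∈ Finset.range L, (if j < k then (1 : ℝ) else 2)) * 2 ^ k = 2 ^ L := by
  intro L hL
  induction L, hL using Nat.le_induction with
  | base =>
    have : ∏ j ∈ Finset.range k, (if j < k then (1 : ℝ) else 2) = 1 := by
      apply Finset.prod_eq_one
      intro j hj
      rw [if_pos (Finset.mem_range.1 hj)]
    rw [this, one_mul]
  | succ L hL ih =>
    rw [Finset.prod_range_succ, if_neg (by omega), pow_succ, ← ih]
    ring

theorem count (k L : ℕ) (hL : k ≤ L) (σ : ℕ → Bool) :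
    (2 ^ L : ℝ)⁻¹ * ∑ τ : Fin L → Bool, (if ∀ j : Fin L, (j : ℕ) < k → τ j = σ j then (1 : ℝ) else 0) =
      (2 ^ k : ℝ)⁻¹ := by
  classical
  have h1 : ∑ τ : Fin L → Bool, (if ∀ j : Fin L, (j : ℕ) < k → τ j = σ j then (1 : ℝ) else 0) =
      ((Fintype.piFinset (fun j : Fin L => if (j : ℕ) < k then {σ j} else Finset.univ)).card : ℝ) := by
    rw [← Finset.sum_filter, Finset.sum_const, nsmul_eq_mul, mul_one]
    congr 2
    ext τ
    simp only [Finset.mem_filter, Finset.mem_univ, true_and, Fintype.mem_piFinset]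
    refine forall_congr' fun j => ?_
    by_cases hj : (j : ℕ) < k
    · simp [hj]
    · simp [hj]
  rw [h1, Fintype.card_piFinset]
  have h2 : ((∏ j : Fin L, (if (j : ℕ) < k then ({σ j} : Finset Bool) else Finset.univ).card : ℕ) : ℝ) =
      ∏ j ∈ Finset.range L, (if j < k then (1 : ℝ) else 2) := by
    rw [← Fin.prod_univ_eq_prod_range (fun j => if j < k then (1 : ℝ) else 2) L]
    push_cast
    refine Finset.prod_congr rfl fun j _ => ?_
    by_cases hj : (j : ℕ) < k
    · simp [hj]
    · simp [hj]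
  rw [h2]
  have h3 := prod_count k L hL
  have h4 : (0 : ℝ) < 2 ^ k := by positivity
  have h5 : (0 : ℝ) < 2 ^ L := by positivity
  field_simp
  linarith

section

variable [CompactSpace K]

theorem exists_diffuse (x : ℕ → K) (hx : Split x) : ∃ φ : StrongDual ℝ C(K, ℝ), Diffuse φ := by
  classical
  obtain ⟨h, hh⟩ := exists_indep x hx
  have hex : ∀ (L : ℕ) (τ : Fin L → Bool), ∃ n, ∀ j : Fin L, h j (x n) = bt (τ j) := by
    intro L τ
    obtain ⟨n, hn⟩ := (hh L (fun n => if hn : n < L then τ ⟨n, hn⟩ else false)).nonempty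
    refine ⟨n, fun j => ?_⟩
    have := hn j j.2
    simpa using this
  choose ν hν using hex
  set Φ : ℕ → StrongDual ℝ C(K, ℝ) := fun L =>
    (2 ^ L : ℝ)⁻¹ • ∑ τ : Fin L → Bool, ContinuousMap.evalCLM ℝ (x (ν L τ)) with hΦ
  have hΦa : ∀ L (f : C(K, ℝ)), Φ L f = (2 ^ L : ℝ)⁻¹ * ∑ τ : Fin L → Bool, f (x (ν L τ)) := by
    intro L f
    simp [hΦ]
  have hcard : ∀ L : ℕ, (2 ^ L : ℝ)⁻¹ * ∑ _τ : Fin L → Bool, (1 : ℝ) = 1 := by
    intro L
    simp
  have hΦn : ∀ L, ‖Φ L‖ ≤ 1 := by
    intro L
    apply ContinuousLinearMap.opNorm_le_bound _ zero_le_one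
    intro f
    rw [hΦa, one_mul, norm_mul, Real.norm_of_nonneg (by positivity)]
    have h1 : ‖∑ τ : Fin L → Bool, f (x (ν L τ))‖ ≤ ∑ _τ : Fin L → Bool, 1 * ‖f‖ := by
      apply norm_sum_le_of_le
      intro τ _
      rw [one_mul]
      exact f.norm_coe_le_norm _
    calc (2 ^ L : ℝ)⁻¹ * ‖∑ τ : Fin L → Bool, f (x (ν L τ))‖
        ≤ (2 ^ L : ℝ)⁻¹ * ∑ _τ : Fin L → Bool, 1 * ‖f‖ :=
          mul_le_mul_of_nonneg_left h1 (by positivity)
      _ = ‖f‖ := by
          rw [← Finset.sum_mul, ← mul_assoc, hcard, one_mul]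
  -- ultrafilter limit
  have hcomp := WeakDual.isCompact_closedBall (0 : StrongDual ℝ C(K, ℝ)) 1
  set ΦW : ℕ → WeakDual ℝ C(K, ℝ) := fun L => StrongDual.toWeakDual (Φ L) with hΦW
  obtain ⟨φ, -, hφ⟩ := hcomp.ultrafilter_le_nhds ((hyperfilter ℕ).map ΦW) (by
    rw [Ultrafilter.coe_map, le_principal_iff, mem_map]
    apply univ_mem'
    intro L
    simp only [mem_preimage, mem_closedBall_zero_iff]
    exact hΦn L)
  have hlim : ∀ f : C(K, ℝ), Tendsto (fun L => Φ L f) (hyperfilter ℕ) (𝓝 (φ f)) := by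
    intro f
    have h1 : Tendsto ΦW (hyperfilter ℕ) (𝓝 φ) := hφ
    exact ((WeakDual.eval_continuous f).tendsto φ).comp h1
  refine ⟨WeakDual.toStrongDual φ, ?_, ?_, ?_⟩
  · intro f hf
    apply ge_of_tendsto' (hlim f)
    intro L
    rw [hΦa]
    exact mul_nonneg (by positivity) (Finset.sum_nonneg fun τ _ => hf _)
  · have h1 : Tendsto (fun L => Φ L 1) (hyperfilter ℕ) (𝓝 1) := by
      have : (fun L => Φ L 1) = fun _ => (1 : ℝ) := by
        ext L
        rw [hΦa]
        exact hcard L
      rw [this]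
      exact tendsto_const_nhds
    exact tendsto_nhds_unique (hlim 1) h1
  · intro t ε hε
    obtain ⟨k, hk⟩ := exists_pow_lt_of_lt_one hε (show (1 / 2 : ℝ) < 1 by norm_num)
    have hk' : (2 ^ k : ℝ)⁻¹ ≤ ε := by
      rw [one_div, inv_pow] at hk
      exact hk.le
    set fac : ℕ → C(K, ℝ) := fun j =>
      ⟨fun y => max 0 (1 - 2 * |h j y - h j t|), by fun_prop⟩ with hfac
    have hfac01 : ∀ j y, 0 ≤ fac j y ∧ fac j y ≤ 1 := by
      intro j y
      simp only [hfac, ContinuousMap.coe_mk]
      have := abs_nonneg (h j y - h j t)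
      exact ⟨le_max_left _ _, max_le zero_le_one (by linarith)⟩
    refine ⟨∏ j ∈ Finset.range k, fac j, ?_, ?_, ?_⟩
    · intro y
      rw [ContinuousMap.prod_apply]
      exact ⟨Finset.prod_nonneg fun j _ => (hfac01 j y).1,
        Finset.prod_le_one (fun j _ => (hfac01 j y).1) (fun j _ => (hfac01 j y).2)⟩
    · rw [ContinuousMap.prod_apply]
      apply Finset.prod_eq_one
      intro j _
      simp [hfac]
    · set σ : ℕ → Bool := fun j => decide (1 / 2 < h j t) with hσ
      apply le_of_tendsto (hlim _)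
      have hev : ∀ᶠ L in (hyperfilter ℕ : Filter ℕ), k ≤ L :=
        (Nat.hyperfilter_le_atTop) (eventually_ge_atTop k)
      filter_upwards [hev] with L hL
      refine le_trans ?_ hk'
      rw [hΦa, ← count k L hL σ]
      apply mul_le_mul_of_nonneg_left _ (by positivity)
      apply Finset.sum_le_sum
      intro τ _
      rw [ContinuousMap.prod_apply]
      split_ifs with hc
      · exact Finset.prod_le_one (fun j _ => (hfac01 j _).1) (fun j _ => (hfac01 j _).2)
      · push Not at hc
        obtain ⟨j, hjk, hj⟩ := hc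
        apply le_of_eq
        apply Finset.prod_eq_zero (Finset.mem_range.2 hjk)
        simp only [hfac, ContinuousMap.coe_mk]
        apply max_eq_left
        have h1 := hν L τ j
        rw [h1]
        simp only [hσ] at hj
        unfold bt
        rcases hτ : τ j with _ | _
        · rw [hτ] at hj
          have h2 : 1 / 2 < h j t := by
            by_contra hcon
            exact hj (decide_eq_false hcon).symm
          have h3 : |(if false = true then (1 : ℝ) else 0) - h j t| = h j t := by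
            simp only [Bool.false_eq_true, if_false, zero_sub, abs_neg]
            exact abs_of_pos (by linarith)
          rw [h3]
          linarith
        · rw [hτ] at hj
          have h2 : h j t ≤ 1 / 2 := by
            by_contra hcon
            exact hj (decide_eq_true (not_le.1 hcon)).symm
          have h3 : |(if true = true then (1 : ℝ) else 0) - h j t| = 1 - h j t := by
            simp only [if_true]
            exact abs_of_pos (by linarith)
          rw [h3]
          linarith

end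

end Pool.Agent.Helper96.Baire
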