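import Pool.Agent.Helper96.Baire.Clopen

set_option autoImplicit false

/-!
# Spaces with subsequential interpolation of continuous functions, F-spaces
-/

namespace Pool.Agent.Helper96.Baire

open Set Filter Topology

variable {K : Type*} [TopologicalSpace K]

section F

/-- F-spaces have the subsequential interpolation property -/
theorem sip_of_fspace (hK : FSpace K) : SIPFun K := by
  classical
  intro f g hf hg hff hfg
  have hterm : ∀ n x, 0 ≤ (1 / 2 : ℝ) ^ n * (f n x + g n x) := fun n x =>
    mul_nonneg (by positivity) (add_nonneg (hf n x).1 (hg n x).1)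
  have hb : ∀ n x, ‖(1 / 2 : ℝ) ^ n * (f n x + g n x)‖ ≤ 2 * (1 / 2 : ℝ) ^ n := by
    intro n x
    rw [Real.norm_of_nonneg (hterm n x)]
    have h1 := (hf n x).2
    have h2 := (hg n x).2
    have h3 : (0 : ℝ) < (1 / 2) ^ n := by positivity
    nlinarith
  have hsumm : Summable (fun n : ℕ => 2 * (1 / 2 : ℝ) ^ n) :=
    (summable_geometric_of_lt_one (by norm_num) (by norm_num)).mul_left 2
  let u : C(K, ℝ) := ⟨fun x => ∑' n, (1 / 2 : ℝ) ^ n * (f n x + g n x), by
    apply continuous_tsum _ hsumm hb
    intro n
    fun_prop⟩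
  have hu : ∀ x, u x = ∑' n, (1 / 2 : ℝ) ^ n * (f n x + g n x) := fun x => rfl
  have hs : ∀ x, Summable (fun n => (1 / 2 : ℝ) ^ n * (f n x + g n x)) := fun x =>
    Summable.of_norm_bounded hsumm (fun n => hb n x)
  have hupos : ∀ x n, (f n x ≠ 0 ∨ g n x ≠ 0) → u x ≠ 0 := by
    intro x n h
    rw [hu]
    apply ne_of_gt
    apply (hs x).tsum_pos (fun n => hterm n x) n
    apply mul_pos (by positivity)
    rcases h with h | h
    · have := lt_of_le_of_ne (hf n x).1 h.symm
      have := (hg n x).1
      linarith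
    · have := lt_of_le_of_ne (hg n x).1 h.symm
      have := (hf n x).1
      linarith
  have hupos' : ∀ x, u x ≠ 0 → ∃ n, f n x ≠ 0 ∨ g n x ≠ 0 := by
    intro x hx
    by_contra hcon
    push Not at hcon
    apply hx
    rw [hu]
    have : (fun n => (1 / 2 : ℝ) ^ n * (f n x + g n x)) = fun _ => 0 := by
      ext n
      rw [(hcon n).1, (hcon n).2]
      ring
    rw [this, tsum_zero]
  let F : {x : K // u x ≠ 0} → ℝ := fun x =>
    if h : ∃ n, f n x.1 ≠ 0 then f h.choose x.1 else 0
  have hFf : ∀ (x : {x : K // u x ≠ 0}) n, f n x.1 ≠ 0 → F x = f n x.1 := by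
    intro x n hn
    have hex : ∃ n, f n x.1 ≠ 0 := ⟨n, hn⟩
    have h1 : F x = f hex.choose x.1 := by
      simp only [F]
      rw [dif_pos hex]
    by_cases he : hex.choose = n
    · rw [h1, he]
    · exfalso
      have := hff _ _ he x.1
      rcases mul_eq_zero.1 this with h | h
      · exact hex.choose_spec h
      · exact hn h
  have hF0 : ∀ (x : {x : K // u x ≠ 0}), (∀ n, f n x.1 = 0) → F x = 0 := by
    intro x hx
    simp only [F]
    rw [dif_neg]
    push Not
    exact hx
  have hFc : Continuous F := by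
    rw [continuous_iff_continuousAt]
    intro x
    obtain ⟨n, hn⟩ := hupos' x.1 x.2
    rcases hn with hn | hn
    · have h1 : ∀ᶠ y : {x : K // u x ≠ 0} in 𝓝 x, f n y.1 ≠ 0 := by
        have : ContinuousAt (fun y : {x : K // u x ≠ 0} => f n y.1) x :=
          ((f n).continuous.comp continuous_subtype_val).continuousAt
        exact this.eventually_ne hn
      have h2 : (fun y : {x : K // u x ≠ 0} => f n y.1) =ᶠ[𝓝 x] F := by
        filter_upwards [h1] with y hy
        exact (hFf y n hy).symm
      exact (((f n).continuous.comp continuous_subtype_val).continuousAt).congr h2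
    · have h1 : ∀ᶠ y : {x : K // u x ≠ 0} in 𝓝 x, g n y.1 ≠ 0 := by
        have : ContinuousAt (fun y : {x : K // u x ≠ 0} => g n y.1) x :=
          ((g n).continuous.comp continuous_subtype_val).continuousAt
        exact this.eventually_ne hn
      have h2 : (fun _ : {x : K // u x ≠ 0} => (0 : ℝ)) =ᶠ[𝓝 x] F := by
        filter_upwards [h1] with y hy
        symm
        apply hF0
        intro k
        rcases mul_eq_zero.1 (hfg k n y.1) with h | h
        · exact h
        · exact absurd h hy
      exact continuousAt_const.congr h2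
  obtain ⟨h, hh⟩ := hK u F hFc ⟨1, fun x => by
    by_cases hx : ∃ n, f n x.1 ≠ 0
    · obtain ⟨n, hn⟩ := hx
      rw [hFf x n hn, abs_of_nonneg (hf n x.1).1]
      exact (hf n x.1).2
    · push Not at hx
      rw [hF0 x hx, abs_zero]
      exact zero_le_one⟩
  refine ⟨univ, infinite_univ, h, ?_, ?_, ?_⟩
  · intro n _ x hx
    have := hh ⟨x, hupos x n (Or.inl hx)⟩
    rw [this]
    exact hFf _ n hx
  · intro n hn
    exact absurd (mem_univ n) hn
  · intro m x hx
    have := hh ⟨x, hupos x m (Or.inr hx)⟩
    rw [this]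
    apply hF0
    intro k
    rcases mul_eq_zero.1 (hfg k m x) with h | h
    · exact h
    · exact absurd h hx

end F

variable [CompactSpace K] [T2Space K]

theorem split_of_fun [Infinite K] (hS : SIPFun K) : ∃ x : ℕ → K, Split x := by
  classical
  obtain ⟨U, hUi, hUo, hUd⟩ := exists_seq_infinite_isOpen_pairwise_disjoint K
  choose x hx using fun n => (hUi n).nonempty
  have hf : ∀ n, ∃ f : C(K, ℝ), (∀ y, y ∉ U n → f y = 0) ∧ f (x n) = 1 ∧ ∀ y, 0 ≤ f y ∧ f y ≤ 1 := by
    intro n
    obtain ⟨f, h1, h2, h3⟩ := exists_continuous_zero_one_of_isClosed (hUo n).isClosed_compl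
      (isClosed_singleton (x := x n)) (by
        rw [disjoint_singleton_right]
        exact fun h => h (hx n))
    exact ⟨f, fun y hy => h1 hy, h2 rfl, fun y => ⟨(h3 y).1, (h3 y).2⟩⟩
  choose f hfU hfx hf01 using hf
  have hff : ∀ n m, n ≠ m → ∀ y, f n y * f m y = 0 := by
    intro n m hnm y
    by_cases hy : y ∈ U n
    · have : y ∉ U m := fun h => disjoint_left.1 (hUd hnm) hy h
      rw [hfU m y this, mul_zero]
    · rw [hfU n y hy, zero_mul]
  refine ⟨x, fun E hE => ?_⟩
  obtain ⟨E', hE'E, hE'i, hEE'⟩ := exists_half E hE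
  set ε := hE'i.natEmbedding with hε
  have hεinj : ∀ i j, ((ε i : E') : ℕ) = ε j → i = j := fun i j h => ε.injective (Subtype.ext h)
  obtain ⟨M, hM, h, h1, h2, h3⟩ := hS (fun j => f (ε j))
    (fun m => if ∃ j, ((ε j : E') : ℕ) = m then 0 else f m)
    (fun j y => hf01 _ y)
    (by
      intro m y
      split_ifs
      · exact ⟨le_rfl, zero_le_one⟩
      · exact hf01 m y)
    (by
      intro i j hij y
      exact hff _ _ (fun h => hij (hεinj i j h)) y)
    (by
      intro i m y
      split_ifs with hc
      · simp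
      · exact hff _ _ (fun h => hc ⟨i, h⟩) y)
  refine ⟨(fun j => ((ε j : E') : ℕ)) '' M, ?_, ?_, ?_, h, ?_, ?_⟩
  · rintro _ ⟨j, _, rfl⟩
    exact hE'E (ε j).2
  · exact hM.image (fun i _ j _ hij => hεinj i j hij)
  · apply hEE'.mono
    apply sdiff_subset_sdiff_right
    rintro _ ⟨j, _, rfl⟩
    exact (ε j).2
  · rintro _ ⟨j, hj, rfl⟩
    have := h1 j hj (x (ε j)) (by
      rw [hfx]
      exact one_ne_zero)
    rw [this]
    exact hfx _
  · intro n hn
    by_cases hc : ∃ j, ((ε j : E') : ℕ) = n
    · obtain ⟨j, hj⟩ := hc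
      have hjM : j ∉ M := fun h => hn ⟨j, h, hj⟩
      apply h2 j hjM
      rw [hj, hfx]
      exact one_ne_zero
    · apply h3 n
      rw [if_neg hc, hfx]
      exact one_ne_zero

/-- threshold functions -/
noncomputable def cc (n : ℕ) : ℝ := 1 / 2 + (1 / 2) ^ (n + 1)

theorem cc_succ (n : ℕ) : cc n - cc (n + 1) = (1 / 2) ^ (n + 2) := by
  unfold cc
  ring

theorem cc_le (n : ℕ) : cc n ≤ 1 := by
  unfold cc
  have : (1 / 2 : ℝ) ^ n ≤ 1 := pow_le_one₀ (by norm_num) (by norm_num)
  have h2 : (1 / 2 : ℝ) ^ (n + 1) = (1 / 2) ^ n / 2 := by ring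
  rw [h2]
  linarith

theorem cc_gt (n : ℕ) : 1 / 2 < cc n := by
  unfold cc
  have : (0 : ℝ) < (1 / 2) ^ (n + 1) := by positivity
  linarith

omit [CompactSpace K] [T2Space K] in
theorem exists_G (a : ℕ → C(K, ℝ)) (T : ℕ → K) (ha : ∀ n x, 0 ≤ a n x ∧ a n x ≤ 1)
    (haT : ∀ n, a n (T n) = 1) :
    ∃ G : ℕ → C(K, ℝ), (∀ x, G 0 x = 0) ∧ (∀ n x, 0 ≤ G n x ∧ G n x ≤ 1) ∧
      (∀ n x, G n x ≠ 0 → G (n + 1) x = 1) ∧ (∀ i n, i < n → G n (T i) = 1) ∧
      ∀ n x, G n x ≤ 2 * ∑ j ∈ Finset.range n, a j x := by
  set s : ℕ → C(K, ℝ) := fun n => ∑ j ∈ Finset.range n, a j with hs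
  have hsx : ∀ n x, s n x = ∑ j ∈ Finset.range n, a j x := by
    intro n x
    simp [hs, ContinuousMap.sum_apply]
  have hs0 : ∀ n x, 0 ≤ s n x := by
    intro n x
    rw [hsx]
    exact Finset.sum_nonneg fun j _ => (ha j x).1
  have hsm : ∀ n x, s n x ≤ s (n + 1) x := by
    intro n x
    rw [hsx, hsx, Finset.sum_range_succ]
    have := (ha n x).1
    linarith
  set G : ℕ → C(K, ℝ) := fun n =>
    ⟨fun x => max 0 (min 1 ((s n x - cc (n + 1)) * 2 ^ (n + 2))), by fun_prop⟩ with hG
  have hGx : ∀ n x, G n x = max 0 (min 1 ((s n x - cc (n + 1)) * 2 ^ (n + 2))) := fun n x => rfl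
  have hG01 : ∀ n x, 0 ≤ G n x ∧ G n x ≤ 1 := by
    intro n x
    rw [hGx]
    exact ⟨le_max_left _ _, max_le zero_le_one (min_le_left _ _)⟩
  have hGpos : ∀ n x, G n x ≠ 0 → cc (n + 1) < s n x := by
    intro n x h
    by_contra hcon
    push Not at hcon
    apply h
    rw [hGx]
    apply max_eq_left
    apply (min_le_right _ _).trans
    have : (0 : ℝ) < 2 ^ (n + 2) := by positivity
    nlinarith
  have hGone : ∀ n x, cc n ≤ s n x → G n x = 1 := by
    intro n x h
    rw [hGx]
    have h1 : 1 ≤ (s n x - cc (n + 1)) * 2 ^ (n + 2) := by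
      have h2 := cc_succ n
      have h3 : (1 / 2 : ℝ) ^ (n + 2) * 2 ^ (n + 2) = 1 := by
        rw [← mul_pow]
        norm_num
      have h4 : (1 / 2 : ℝ) ^ (n + 2) ≤ s n x - cc (n + 1) := by linarith
      calc (1 : ℝ) = (1 / 2 : ℝ) ^ (n + 2) * 2 ^ (n + 2) := h3.symm
        _ ≤ _ := mul_le_mul_of_nonneg_right h4 (by positivity)
    rw [min_eq_left h1]
    exact max_eq_right zero_le_one
  refine ⟨G, ?_, hG01, ?_, ?_, ?_⟩
  · intro x
    by_contra h
    have h1 := hGpos 0 x h
    have h2 : s 0 x = 0 := by rw [hsx]; simp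
    have h3 := cc_gt (0 + 1)
    linarith
  · intro n x h
    apply hGone
    have h1 := hGpos n x h
    have h2 := hsm n x
    linarith
  · intro i n hin
    apply hGone
    have h1 : a i (T i) ≤ s n (T i) := by
      rw [hsx]
      exact Finset.single_le_sum (f := fun j => a j (T i)) (fun j _ => (ha j (T i)).1)
        (Finset.mem_range.2 hin)
    rw [haT] at h1
    exact (cc_le n).trans h1
  · intro n x
    rw [← hsx]
    by_cases h : G n x = 0
    · rw [h]
      have := hs0 n x
      linarith
    · have h1 := hGpos n x h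
      have h2 := cc_gt (n + 1)
      have h3 := (hG01 n x).2
      linarith

theorem sum_blocks (p : ℕ → ℕ) (hp : StrictMono p) (hp0 : p 0 = 0) (M : Set ℕ)
    [DecidablePred (· ∈ M)] (w : ℕ → Bool) (v : ℕ → ℝ) (L : ℕ) :
    ∑ n ∈ Finset.range (p L), (if blk w p M n then v n else 0) =
      ∑ k ∈ Finset.range L, if k ∈ M then
        ∑ n ∈ Finset.Ico (p k) (p (k + 1)), (if w n then v n else 0) else 0 := by
  induction L with
  | zero => rw [hp0]; simp
  | succ L ih =>
    rw [Finset.sum_range_succ, ← ih, Finset.range_eq_Ico, Finset.range_eq_Ico,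
      ← Finset.sum_Ico_consecutive _ (Nat.zero_le _) (hp.monotone (Nat.le_succ L))]
    congr 1
    split_ifs with hL
    · refine Finset.sum_congr rfl fun n hn => ?_
      have hn' := Finset.mem_Ico.1 hn
      rw [blk_of_mem hL hn'.1 hn'.2]
    · apply Finset.sum_eq_zero
      intro n hn
      have hn' := Finset.mem_Ico.1 hn
      rw [blk_of_notMem hp hL hn'.1 hn'.2]
      simp

theorem pu_of_fun (hS : SIPFun K) (T : ℕ → K)
    (a : ℕ → C(K, ℝ)) (ha : ∀ n x, 0 ≤ a n x ∧ a n x ≤ 1) (haT : ∀ n, a n (T n) = 1) :
    ∃ e m, PU T a e m := by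
  classical
  obtain ⟨G, hG0, hG01, hGs, hGT, hGb⟩ := exists_G a T ha haT
  have hGm : ∀ n x, G n x ≤ G (n + 1) x := by
    intro n x
    by_cases h : G n x = 0
    · rw [h]
      exact (hG01 (n + 1) x).1
    · rw [hGs n x h]
      exact (hG01 n x).2
  have hG1 : ∀ n k x, G n x = 1 → n ≤ k → G k x = 1 := by
    intro n k x h hk
    induction k, hk using Nat.le_induction with
    | base => exact h
    | succ k _ ih =>
      apply hGs
      rw [ih]
      exact one_ne_zero
  set e : ℕ → C(K, ℝ) := fun n => G (n + 1) - G n with he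
  have hex : ∀ n x, e n x = G (n + 1) x - G n x := fun n x => rfl
  have he0 : ∀ n x, 0 ≤ e n x := by
    intro n x
    rw [hex]
    have := hGm n x
    linarith
  have hsum : ∀ l x, ∑ n ∈ Finset.range l, e n x = G l x := by
    intro l x
    simp only [hex]
    rw [Finset.sum_range_sub (fun n => G n x), hG0, sub_zero]
  have hdis : ∀ n k x, n + 2 ≤ k → e n x ≠ 0 → e k x = 0 := by
    intro n k x hk h
    have h1 : G (n + 1) x ≠ 0 := by
      intro h0
      apply h
      have h2 := he0 n x
      rw [hex] at h2 ⊢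
      have h3 := (hG01 n x).1
      linarith
    have h2 := hGs (n + 1) x h1
    rw [hex, hG1 _ k x h2 (by omega), hG1 _ (k + 1) x h2 (by omega), sub_self]
  refine ⟨e, fun i => i + 1, he0, ?_, ?_, ?_, ?_⟩
  · intro i
    rw [hsum]
    exact hGT i (i + 1) (by omega)
  · intro i n hn
    rw [hex, hGT i n (by omega), hGT i (n + 1) (by omega), sub_self]
  · intro l x
    rw [hsum]
    exact hGb l x
  · intro w p hp hp0 E hE
    -- a parity class
    obtain ⟨c, hc⟩ : ∃ c, (E ∩ {k | k % 2 = c}).Infinite := by
      by_contra hcon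
      push Not at hcon
      have h1 := (hcon 0).union (hcon 1)
      apply hE
      apply h1.subset
      intro k hk
      rcases Nat.mod_two_eq_zero_or_one k with h | h
      · exact Or.inl ⟨hk, h⟩
      · exact Or.inr ⟨hk, h⟩
    set ε := hc.natEmbedding with hε
    set ι : ℕ → ℕ := fun j => ((ε j : (E ∩ {k | k % 2 = c} : Set ℕ)) : ℕ) with hι
    have hιE : ∀ j, ι j ∈ E := fun j => (ε j).2.1
    have hιc : ∀ j, ι j % 2 = c := fun j => (ε j).2.2
    have hιinj : ∀ i j, ι i = ι j → i = j := fun i j h => ε.injective (Subtype.ext h)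
    -- the block functions
    set b : ℕ → C(K, ℝ) := fun k => ∑ n ∈ Finset.Ico (p k) (p (k + 1)), if w n then e n else 0 with hb
    have hbx : ∀ k x, b k x = ∑ n ∈ Finset.Ico (p k) (p (k + 1)), if w n then e n x else 0 := by
      intro k x
      simp only [hb, ContinuousMap.sum_apply]
      refine Finset.sum_congr rfl fun n _ => ?_
      split_ifs <;> simp
    have hb0 : ∀ k x, 0 ≤ b k x := by
      intro k x
      rw [hbx]
      apply Finset.sum_nonneg
      intro n _
      split_ifs
      · exact he0 n x
      · exact le_rfl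
    have hb1 : ∀ k x, b k x ≤ 1 := by
      intro k x
      rw [hbx]
      calc ∑ n ∈ Finset.Ico (p k) (p (k + 1)), (if w n then e n x else 0)
          ≤ ∑ n ∈ Finset.Ico (p k) (p (k + 1)), e n x := by
            apply Finset.sum_le_sum
            intro n _
            split_ifs
            · exact le_rfl
            · exact he0 n x
        _ ≤ ∑ n ∈ Finset.range (p (k + 1)), e n x := by
            apply Finset.sum_le_sum_of_subset_of_nonneg
            · intro n hn
              exact Finset.mem_range.2 (Finset.mem_Ico.1 hn).2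
            · intro n _ _
              exact he0 n x
        _ = G (p (k + 1)) x := hsum _ x
        _ ≤ 1 := (hG01 _ x).2
    have hbne : ∀ k x, b k x ≠ 0 → ∃ n, p k ≤ n ∧ n < p (k + 1) ∧ w n = true ∧ e n x ≠ 0 := by
      intro k x h
      rw [hbx] at h
      obtain ⟨n, hn, hne⟩ := Finset.exists_ne_zero_of_sum_ne_zero h
      have hn' := Finset.mem_Ico.1 hn
      by_cases hw : w n = true
      · rw [if_pos hw] at hne
        exact ⟨n, hn'.1, hn'.2, hw, hne⟩
      · rw [if_neg hw] at hne
        exact absurd rfl hne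
    have hbdis : ∀ k k' x, k % 2 = c → k' % 2 = c → k ≠ k' → b k x ≠ 0 → b k' x ≠ 0 → False := by
      have key : ∀ k k' x, k + 2 ≤ k' → b k x ≠ 0 → b k' x ≠ 0 → False := by
        intro k k' x hkk h1 h2
        obtain ⟨n, hn1, hn2, _, hn4⟩ := hbne k x h1
        obtain ⟨n', hn1', hn2', _, hn4'⟩ := hbne k' x h2
        have h3 := hp.monotone hkk
        have h4 := hp (show k + 1 < k + 2 by omega)
        exact hn4' (hdis n n' x (by omega) hn4)
      intro k k' x hk hk' hne h1 h2
      rcases lt_or_gt_of_ne hne with h | h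
      · exact key k k' x (by omega) h1 h2
      · exact key k' k x (by omega) h2 h1
    -- the closed set
    set C : Set K := closure (⋃ j, {x | b (ι j) x ≠ 0}) with hC
    have hgex : ∀ i, ∃ g : C(K, ℝ), (∀ x, 0 ≤ g x ∧ g x ≤ 1) ∧ (∀ x ∈ C, g x = 0) ∧
        (T i ∉ C → g (T i) = 1) := by
      intro i
      by_cases hi : T i ∈ C
      · exact ⟨0, fun x => ⟨le_rfl, zero_le_one⟩, fun x _ => rfl, fun h => absurd hi h⟩
      · obtain ⟨g, h1, h2, h3⟩ := exists_continuous_zero_one_of_isClosed
          (isClosed_closure (s := ⋃ j, {x | b (ι j) x ≠ 0}))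
          (isClosed_singleton (x := T i)) (by
            rw [disjoint_singleton_right]
            exact hi)
        exact ⟨g, fun x => ⟨(h3 x).1, (h3 x).2⟩, fun x hx => h1 hx, fun _ => h2 rfl⟩
    choose g hg01 hgC hgT using hgex
    obtain ⟨M, hM, h, h1, h2, h3⟩ := hS (fun j => b (ι j)) g
      (fun j x => ⟨hb0 _ x, hb1 _ x⟩) hg01
      (by
        intro i j hij x
        by_contra hne
        have := mul_ne_zero_iff.1 hne
        exact hbdis (ι i) (ι j) x (hιc i) (hιc j) (fun h => hij (hιinj i j h)) this.1 this.2)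
      (by
        intro j m x
        by_cases hx : b (ι j) x = 0
        · rw [hx, zero_mul]
        · rw [hgC m x (subset_closure (mem_iUnion.2 ⟨j, hx⟩)), mul_zero])
    refine ⟨ι '' M, ?_, ?_, h, ?_⟩
    · rintro _ ⟨j, _, rfl⟩
      exact hιE j
    · exact hM.image (fun i _ j _ hij => hιinj i j hij)
    · intro i
      -- regrouping
      have hSS : SS T e (fun i => i + 1) (blk w p (ι '' M)) i =
          ∑ k ∈ Finset.range (i + 1), if k ∈ ι '' M then b k (T i) else 0 := by
        have e1 := sum_blocks p hp hp0 (ι '' M) w (fun n => e n (T i)) (i + 1)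
        have e2 : SS T e (fun i => i + 1) (blk w p (ι '' M)) i =
            ∑ n ∈ Finset.range (p (i + 1)), if blk w p (ι '' M) n then e n (T i) else 0 := by
          unfold SS
          apply Finset.sum_subset (Finset.range_mono (hp.id_le (i + 1)))
          intro n _ hn
          have hn' : i + 1 ≤ n := by simpa using hn
          have : e n (T i) = 0 := by
            rw [hex, hGT i n (by omega), hGT i (n + 1) (by omega), sub_self]
          rw [this]
          simp
        rw [e2, e1]
        refine Finset.sum_congr rfl fun k _ => ?_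
        rw [hbx]
      rw [hSS]
      have hpk : ∀ k, k ≤ p k := fun k => hp.id_le k
      have hsmall : ∀ k, b k (T i) ≠ 0 → k < i + 1 := by
        intro k hk
        obtain ⟨n, hn1, _, _, hn4⟩ := hbne k (T i) hk
        by_contra hcon
        push Not at hcon
        apply hn4
        have := hpk k
        rw [hex, hGT i n (by omega), hGT i (n + 1) (by omega), sub_self]
      by_cases hA : ∃ j, b (ι j) (T i) ≠ 0
      · obtain ⟨j, hj⟩ := hA
        have huniq : ∀ k, k ∈ ι '' M → b k (T i) ≠ 0 → k = ι j := by
          rintro _ ⟨j', _, rfl⟩ hk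
          by_contra hne
          exact hbdis _ _ (T i) (hιc j') (hιc j) hne hk hj
        by_cases hjM : j ∈ M
        · rw [h1 j hjM (T i) hj, Finset.sum_eq_single (ι j)]
          · rw [if_pos ⟨j, hjM, rfl⟩]
          · intro k _ hk
            split_ifs with hkM
            · by_contra hne
              exact hk (huniq k hkM hne)
            · rfl
          · intro hn
            exact absurd (Finset.mem_range.2 (hsmall _ hj)) hn
        · rw [h2 j hjM (T i) hj]
          symm
          apply Finset.sum_eq_zero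
          intro k _
          split_ifs with hkM
          · by_contra hne
            have := huniq k hkM hne
            rw [this] at hkM
            obtain ⟨j', hj', hjj⟩ := hkM
            exact hjM (hιinj j' j hjj ▸ hj')
          · rfl
      · push Not at hA
        have hR : (∑ k ∈ Finset.range (i + 1), if k ∈ ι '' M then b k (T i) else 0) = 0 := by
          apply Finset.sum_eq_zero
          intro k _
          split_ifs with hkM
          · obtain ⟨j, _, rfl⟩ := hkM
            exact hA j
          · rfl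
        rw [hR]
        by_cases hTC : T i ∈ C
        · -- local finiteness
          have hO : IsOpen {x : K | G (i + 1) x ≠ 0} :=
            isOpen_ne_fun (G (i + 1)).continuous continuous_const
          have hTO : T i ∈ {x : K | G (i + 1) x ≠ 0} := by
            change G (i + 1) (T i) ≠ 0
            rw [hGT i (i + 1) (by omega)]
            exact one_ne_zero
          have hfin : {j : ℕ | ι j ≤ i + 1}.Finite := by
            apply Set.Finite.of_finite_image (f := ι)
            · apply (Set.finite_Iic (i + 1)).subset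
              rintro _ ⟨j, hj, rfl⟩
              exact hj
            · intro a _ b _ hab
              exact hιinj a b hab
          have hcl : T i ∈ closure (⋃ j ∈ {j : ℕ | ι j ≤ i + 1}, {x | b (ι j) x ≠ 0}) := by
            rw [mem_closure_iff]
            intro O hOo hOT
            obtain ⟨y, ⟨hy1, hy2⟩, hy3⟩ := mem_closure_iff.1 hTC (O ∩ {x : K | G (i + 1) x ≠ 0})
              (hOo.inter hO) ⟨hOT, hTO⟩
            obtain ⟨j, hj⟩ := mem_iUnion.1 hy3
            refine ⟨y, hy1, mem_biUnion (x := j) ?_ hj⟩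
            change ι j ≤ i + 1
            by_contra hcon
            push Not at hcon
            obtain ⟨n, hn1, _, _, hn4⟩ := hbne _ y hj
            apply hn4
            have hy2' : G (i + 1) y ≠ 0 := hy2
            have h4 := hGs _ y hy2'
            have := hpk (ι j)
            rw [hex, hG1 _ n y h4 (by omega), hG1 _ (n + 1) y h4 (by omega), sub_self]
          rw [hfin.closure_biUnion] at hcl
          obtain ⟨j, _, hj⟩ := mem_iUnion₂.1 hcl
          by_cases hjM : j ∈ M
          · have hclosed : IsClosed {x : K | h x = b (ι j) x} :=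
              isClosed_eq h.continuous (b (ι j)).continuous
            have : T i ∈ {x : K | h x = b (ι j) x} :=
              closure_minimal (fun x hx => h1 j hjM x hx) hclosed hj
            have h5 : h (T i) = b (ι j) (T i) := this
            rw [h5]
            exact hA j
          · have hclosed : IsClosed {x : K | h x = 0} :=
              isClosed_eq h.continuous continuous_const
            exact closure_minimal (fun x hx => h2 j hjM x hx) hclosed hj
        · apply h3 i
          rw [hgT i hTC]
          exact one_ne_zero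

theorem main_fun [Infinite K] (hS : SIPFun K) : ¬ WM K := by
  obtain ⟨x, hx⟩ := split_of_fun hS
  obtain ⟨φ, hφ⟩ := exists_diffuse x hx
  exact core φ hφ (fun T a ha haT => pu_of_fun hS T a ha haT)

end Pool.Agent.Helper96.Baire
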