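import Pool.Agent.Helper96.Baire.Defs

/-!
# Sanity check: the Čech–Stone compactification of `ℕ` satisfies the hypotheses of
`MP_bb644c_an.BaireInterpolation`
-/

namespace Pool.Agent.Helper96.Baire

theorem sanity_mem {A : Set (Ultrafilter ℕ)} (hA : IsOpen A) {u : Ultrafilter ℕ} (hu : u ∈ A) :
    {m : ℕ | (pure m : Ultrafilter ℕ) ∈ A} ∈ u := by
  obtain ⟨t, ht, hut, htA⟩ := (ultrafilterBasis_is_basis (α := ℕ)).exists_subset_of_mem_open hu hA
  obtain ⟨s, rfl⟩ := ht
  refine Filter.mem_of_superset (x := s) hut fun m hm => ?_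
  exact htA (show s ∈ (pure m : Ultrafilter ℕ) from hm)

theorem sanity_sip : SIPClopen (Ultrafilter ℕ) := by
  intro A hA hd E hE
  refine ⟨E, le_rfl, hE, {u | (⋃ n ∈ E, {m : ℕ | (pure m : Ultrafilter ℕ) ∈ A n}) ∈ u},
    ⟨ultrafilter_isClosed_basic _, ultrafilter_isOpen_basic _⟩, ?_, ?_⟩
  · intro n hn u hu
    refine Filter.mem_of_superset (sanity_mem (hA n).isOpen hu) ?_
    exact Set.subset_biUnion_of_mem (u := fun n => {m : ℕ | (pure m : Ultrafilter ℕ) ∈ A n}) hn
  · intro n hn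
    rw [Set.disjoint_left]
    intro u hu hB
    have h1 := sanity_mem (hA n).isOpen hu
    have h2 := Filter.inter_mem h1 hB
    obtain ⟨m, hm1, hm2⟩ := u.nonempty_of_mem h2
    simp only [Set.mem_iUnion, Set.mem_ofPred_eq] at hm2
    obtain ⟨k, hk, hm2⟩ := hm2
    have hne : n ≠ k := fun h => hn (h ▸ hk)
    exact Set.disjoint_left.mp (hd hne) hm1 hm2

/-- all hypotheses hold for `K = L = βℕ` and the identity map -/
theorem sanity : Function.Surjective (ContinuousMap.id (Ultrafilter ℕ)) ∧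
    Infinite (Ultrafilter ℕ) ∧ CompactSpace (Ultrafilter ℕ) ∧ T2Space (Ultrafilter ℕ) ∧
    TotallyDisconnectedSpace (Ultrafilter ℕ) ∧ SIPClopen (Ultrafilter ℕ) := by
  refine ⟨Function.surjective_id, ?_, inferInstance, inferInstance, ?_, sanity_sip⟩
  · exact Infinite.of_injective (pure : ℕ → Ultrafilter ℕ) Ultrafilter.pure_injective
  · infer_instance

end Pool.Agent.Helper96.Baire
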